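import Mathlib
set_option autoImplicit false

namespace Pool.Agent.Helper549.Tri2.AlgJob

theorem F_alg_sq (D : ℤ) (r : ℚ) (h : (D : ℚ) = r ^ 2) : ∃ t : ℕ, (t : ℤ) ^ 2 = D := by
  have h1 : IsSquare (D : ℚ) := ⟨r, by rw [h, sq]⟩
  rw [Rat.isSquare_intCast_iff] at h1
  obtain ⟨t, ht⟩ := h1
  refine ⟨t.natAbs, ?_⟩
  rw [Int.natCast_natAbs, sq_abs, ht, sq]

/-- TARGET 1 -/
theorem F_alg (m n N : ℕ) (hm : 0 < m) (hn : 0 < n) (a b c s : ℝ) (ha : 0 < a) (hb : 0 < b)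
    (hc : 0 < c) (hcos : c ^ 2 = a ^ 2 + b ^ 2 - a * b) (harea : s ^ 2 = N * (a * b))
    (e1 : 3 * s = m * (a + b - c)) (e2 : 3 * s = n * (a + b + c)) (hmn : m * n = 3 * N)
    (hra : ∃ q : ℚ, a = q * c) (hrb : ∃ q : ℚ, b = q * c) :
    3 * n ≤ m ∧ ∃ t : ℕ, t ^ 2 + 30 * m * n = 9 * m ^ 2 + 9 * n ^ 2 := by
  obtain ⟨q1, h1⟩ := hra
  obtain ⟨q2, h2⟩ := hrb
  have hab : 0 < a * b := mul_pos ha hb
  have hm' : (0 : ℝ) < m := by exact_mod_cast hm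
  have hn' : (0 : ℝ) < n := by exact_mod_cast hn
  have hu : c < a + b := by nlinarith
  have hrel : (m : ℝ) * (a + b - c) = n * (a + b + c) := by rw [← e1, ← e2]
  have hkey : (3 * (m + n) * (a - b) : ℝ) ^ 2 = (a + b) ^ 2 * (9 * m ^ 2 - 30 * m * n + 9 * n ^ 2) := by
    have hc2 : (c * (m + n) : ℝ) = (m - n) * (a + b) := by linarith
    have h3 : 3 * (a - b) ^ 2 = 4 * c ^ 2 - (a + b) ^ 2 := by rw [hcos]; ring
    have h4 : (c * (m + n) : ℝ) ^ 2 = ((m - n) * (a + b)) ^ 2 := by rw [hc2]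
    linear_combination 3 * (m + n : ℝ) ^ 2 * h3 + 12 * h4
  have hupos : 0 < a + b := by linarith
  set D : ℤ := 9 * (m : ℤ) ^ 2 - 30 * m * n + 9 * (n : ℤ) ^ 2 with hD
  have hq : (q1 + q2 : ℝ) ≠ 0 := by
    intro h0
    have : a + b = (q1 + q2) * c := by rw [h1, h2]; ring
    rw [h0, zero_mul] at this
    linarith
  have hDr : (D : ℝ) = (3 * (m + n) * (q1 - q2) / (q1 + q2) : ℝ) ^ 2 := by
    have e3 : (D : ℝ) = 9 * (m : ℝ) ^ 2 - 30 * m * n + 9 * (n : ℝ) ^ 2 := by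
      rw [hD]; push_cast; ring
    rw [e3, div_pow, eq_div_iff (pow_ne_zero 2 hq)]
    rw [h1, h2] at hkey
    have hc2 : c ^ 2 ≠ 0 := by positivity
    apply mul_left_cancel₀ hc2
    linear_combination -hkey
  have hDq : (D : ℚ) = (3 * (m + n) * (q1 - q2) / (q1 + q2)) ^ 2 := by
    have : ((D : ℚ) : ℝ) = ((3 * (m + n) * (q1 - q2) / (q1 + q2) : ℚ) : ℝ) ^ 2 := by
      push_cast
      exact hDr
    exact_mod_cast this
  obtain ⟨t, ht⟩ := F_alg_sq D _ hDq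
  refine ⟨?_, t, ?_⟩
  · have hlt : (n : ℝ) < m := by
      by_contra hle
      push Not at hle
      have : (m : ℝ) * (a + b - c) < n * (a + b + c) := by
        calc (m : ℝ) * (a + b - c) ≤ n * (a + b - c) :=
              mul_le_mul_of_nonneg_right hle (by linarith)
          _ < n * (a + b + c) := mul_lt_mul_of_pos_left (by linarith) hn'
      linarith
    have hD0 : 0 ≤ D := by rw [← ht]; positivity
    have hlt' : (n : ℤ) < m := by exact_mod_cast hlt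
    by_contra hcon
    push Not at hcon
    have hcon' : (m : ℤ) < 3 * n := by exact_mod_cast hcon
    have hn'' : (0 : ℤ) < n := by exact_mod_cast hn
    nlinarith
  · have : (t : ℤ) ^ 2 + 30 * m * n = 9 * (m : ℤ) ^ 2 + 9 * (n : ℤ) ^ 2 := by
      rw [ht, hD]; ring
    exact_mod_cast this

/-- TARGET 2 -/
theorem E_alg (m n N : ℕ) (hm : 0 < m) (hn : 0 < n) (a b c s : ℝ) (ha : 0 < a) (hb : 0 < b)
    (hc : 0 < c) (hcos : c ^ 2 = a ^ 2 + a * b + b ^ 2) (harea : s ^ 2 = N * (a * b))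
    (e1 : 3 * s = m * (a - b + c)) (e2 : 3 * s = n * (-a + b + c)) (hmn : m * n = 3 * N)
    (hra : ∃ q : ℚ, a = q * c) (hrb : ∃ q : ℚ, b = q * c) :
    ∃ t : ℕ, t ^ 2 = 9 * m ^ 2 + 30 * m * n + 9 * n ^ 2 := by
  obtain ⟨q1, h1⟩ := hra
  obtain ⟨q2, h2⟩ := hrb
  have hrel : (m : ℝ) * (a - b + c) = n * (-a + b + c) := by rw [← e1, ← e2]
  have hkey : (3 * (m + n) * (a + b) : ℝ) ^ 2 = c ^ 2 * (9 * m ^ 2 + 30 * m * n + 9 * n ^ 2) := by
    have hc2 : ((m + n) * (a - b) : ℝ) = (n - m) * c := by linarith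
    have h3 : 3 * (a + b) ^ 2 = 4 * c ^ 2 - (a - b) ^ 2 := by rw [hcos]; ring
    have h4 : ((m + n) * (a - b) : ℝ) ^ 2 = ((n - m) * c) ^ 2 := by rw [hc2]
    linear_combination 3 * (m + n : ℝ) ^ 2 * h3 - 3 * h4
  set D : ℤ := 9 * (m : ℤ) ^ 2 + 30 * m * n + 9 * (n : ℤ) ^ 2 with hD
  have hDr : (D : ℝ) = (3 * (m + n) * (q1 + q2) : ℝ) ^ 2 := by
    have e3 : (D : ℝ) = 9 * (m : ℝ) ^ 2 + 30 * m * n + 9 * (n : ℝ) ^ 2 := by
      rw [hD]; push_cast; ring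
    rw [e3]
    rw [h1, h2] at hkey
    have hc2 : c ^ 2 ≠ 0 := by positivity
    apply mul_left_cancel₀ hc2
    linear_combination -hkey
  have hDq : (D : ℚ) = (3 * (m + n) * (q1 + q2)) ^ 2 := by
    have : ((D : ℚ) : ℝ) = ((3 * (m + n) * (q1 + q2) : ℚ) : ℝ) ^ 2 := by
      push_cast
      exact hDr
    exact_mod_cast this
  obtain ⟨t, ht⟩ := F_alg_sq D _ hDq
  refine ⟨t, ?_⟩
  have : (t : ℤ) ^ 2 = 9 * (m : ℤ) ^ 2 + 30 * m * n + 9 * (n : ℤ) ^ 2 := by rw [ht, hD]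
  exact_mod_cast this

end Pool.Agent.Helper549.Tri2.AlgJob
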