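import Mathlib
set_option autoImplicit false

namespace Pool.Agent.Helper549.Tri2.CntJob

open Finset

theorem aux_dvd (e1 e2 M : ℕ) (h1 : Squarefree e1) (h2 : 0 < e2) (h : e2 ^ 2 * e1 ∣ M ^ 2) :
    e1 * e2 ∣ M := by
  have h3 : e2 ^ 2 ∣ M ^ 2 := (Dvd.intro _ rfl).trans h
  have h4 : e2 ∣ M := (Nat.pow_dvd_pow_iff (by norm_num)).mp h3
  obtain ⟨k, rfl⟩ := h4
  rw [mul_pow] at h
  have h5 : e1 ∣ k ^ 2 := Nat.dvd_of_mul_dvd_mul_left (by positivity) h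
  have h6 : e1 ∣ k := (h1.dvd_pow_iff_dvd (by norm_num)).mp h5
  rw [mul_comm e1 e2]
  exact Nat.mul_dvd_mul_left e2 h6

theorem cardP (Z : ℕ) :
    ((((Icc 1 Z) ×ˢ (Icc 1 (4 * Z))).filter (fun q : ℕ × ℕ => q.2 ∣ (4 * q.1) ^ 2)).card : ℝ) ≤
      ((4 * Z : ℕ) : ℝ) * (1 + Real.log ((4 * Z : ℕ) : ℝ)) ^ 2 := by
  set K := 4 * Z with hK
  set P := ((Icc 1 Z) ×ˢ (Icc 1 K)).filter (fun q : ℕ × ℕ => q.2 ∣ (4 * q.1) ^ 2) with hP
  set Q := ((Icc 1 K ×ˢ Icc 1 K) ×ˢ (Icc 1 Z)).filter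
    (fun q : (ℕ × ℕ) × ℕ => q.1.1 * q.1.2 ∣ 4 * q.2) with hQ
  have hPQ : P ⊆ Q.image (fun q => (q.2, q.1.2 ^ 2 * q.1.1)) := by
    rintro ⟨n, e⟩ hq
    rw [hP, mem_filter, mem_product, mem_Icc, mem_Icc] at hq
    obtain ⟨⟨⟨hn1, hn2⟩, he1, he2⟩, hdvd⟩ := hq
    simp only at hn1 hn2 he1 he2 hdvd
    obtain ⟨a, b, hab, hsq⟩ := Nat.sq_mul_squarefree e
    have hb : 0 < b := by
      rcases Nat.eq_zero_or_pos b with h | h
      · subst h; simp at hab; omega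
      · exact h
    have ha : 0 < a := by
      rcases Nat.eq_zero_or_pos a with h | h
      · subst h; simp at hab; omega
      · exact h
    have hb2 : b ≤ b ^ 2 := by nlinarith
    have ha' : a ≤ e := by
      rw [← hab]
      exact Nat.le_mul_of_pos_left a (by positivity)
    have hb' : b ≤ e := by
      rw [← hab]
      exact hb2.trans (Nat.le_mul_of_pos_right _ ha)
    rw [mem_image]
    refine ⟨((a, b), n), ?_, ?_⟩
    · rw [hQ, mem_filter, mem_product, mem_product, mem_Icc, mem_Icc, mem_Icc]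
      refine ⟨⟨⟨⟨ha, ha'.trans he2⟩, ⟨hb, hb'.trans he2⟩⟩, ⟨hn1, hn2⟩⟩, ?_⟩
      exact aux_dvd a b (4 * n) hsq hb (by rw [hab]; exact hdvd)
    · simp only [hab]
  have h1 : P.card ≤ Q.card := (card_le_card hPQ).trans card_image_le
  have h2 : Q.card = ∑ e ∈ Icc 1 K ×ˢ Icc 1 K, ((Icc 1 Z).filter (fun n => e.1 * e.2 ∣ 4 * n)).card := by
    rw [hQ, card_filter, sum_product]
    refine sum_congr rfl fun e _ => ?_
    rw [card_filter]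
  have h3 : ∀ e ∈ Icc 1 K ×ˢ Icc 1 K, (((Icc 1 Z).filter (fun n => e.1 * e.2 ∣ 4 * n)).card : ℝ) ≤
      (K : ℝ) * ((e.1 : ℝ)⁻¹ * (e.2 : ℝ)⁻¹) := by
    intro e _
    have h4 : ((Icc 1 Z).filter (fun n => e.1 * e.2 ∣ 4 * n)).card ≤
        ((Ioc 0 K).filter (fun n => e.1 * e.2 ∣ n)).card := by
      apply card_le_card_of_injOn (fun n => 4 * n)
      · intro n hn
        rw [mem_coe, mem_filter, mem_Icc] at hn
        rw [mem_coe, mem_filter, mem_Ioc]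
        obtain ⟨⟨hn1, hn2⟩, hn3⟩ := hn
        refine ⟨⟨?_, ?_⟩, hn3⟩
        · show 0 < 4 * n
          omega
        · show 4 * n ≤ K
          omega
      · intro a _ b _ hab
        simp only at hab
        omega
    rw [Nat.Ioc_filter_dvd_card_eq_div] at h4
    calc (((Icc 1 Z).filter (fun n => e.1 * e.2 ∣ 4 * n)).card : ℝ) ≤ ((K / (e.1 * e.2) : ℕ) : ℝ) := by
          exact_mod_cast h4
      _ ≤ (K : ℝ) / ((e.1 * e.2 : ℕ) : ℝ) := Nat.cast_div_le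
      _ = (K : ℝ) * ((e.1 : ℝ)⁻¹ * (e.2 : ℝ)⁻¹) := by
          push_cast
          rw [div_eq_mul_inv, mul_inv]
  have h5 : (∑ e ∈ Icc 1 K ×ˢ Icc 1 K, (K : ℝ) * ((e.1 : ℝ)⁻¹ * (e.2 : ℝ)⁻¹)) =
      (K : ℝ) * (∑ i ∈ Icc 1 K, (i : ℝ)⁻¹) ^ 2 := by
    rw [← mul_sum, sum_product, sq, sum_mul_sum]
  have h6 : (∑ i ∈ Icc 1 K, (i : ℝ)⁻¹) ≤ 1 + Real.log (K : ℝ) := by
    have := harmonic_le_one_add_log K
    rw [harmonic_eq_sum_Icc] at this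
    push_cast at this
    exact this
  have h7 : 0 ≤ (∑ i ∈ Icc 1 K, (i : ℝ)⁻¹) := sum_nonneg fun i _ => by positivity
  calc (P.card : ℝ) ≤ (Q.card : ℝ) := by exact_mod_cast h1
    _ = ∑ e ∈ Icc 1 K ×ˢ Icc 1 K, (((Icc 1 Z).filter (fun n => e.1 * e.2 ∣ 4 * n)).card : ℝ) := by
        rw [h2]; push_cast; rfl
    _ ≤ ∑ e ∈ Icc 1 K ×ˢ Icc 1 K, (K : ℝ) * ((e.1 : ℝ)⁻¹ * (e.2 : ℝ)⁻¹) := sum_le_sum h3
    _ = (K : ℝ) * (∑ i ∈ Icc 1 K, (i : ℝ)⁻¹) ^ 2 := h5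
    _ ≤ (K : ℝ) * (1 + Real.log (K : ℝ)) ^ 2 := by
        gcongr

theorem key (n w t : ℕ) (hn : 1 ≤ n) (h : w ^ 2 = t ^ 2 + 16 * n ^ 2) :
    ∃ e : ℕ, 1 ≤ e ∧ e ≤ 4 * n ∧ e ∣ (4 * n) ^ 2 ∧ (e + (4 * n) ^ 2 / e) / 2 = w := by
  have htw : t < w := by
    by_contra hcon
    push Not at hcon
    nlinarith
  obtain ⟨e, rfl⟩ := Nat.exists_eq_add_of_lt htw
  have h1 : (e + 1) * (t + e + 1 + t) = (4 * n) ^ 2 := by nlinarith
  refine ⟨e + 1, by omega, ?_, Dvd.intro _ h1, ?_⟩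
  · by_contra hcon
    push Not at hcon
    nlinarith
  · rw [← h1, Nat.mul_div_cancel_left _ (by omega)]
    omega

/-- TARGET -/
theorem count_pairs (x : ℕ) :
    (({N : ℕ | 1 ≤ N ∧ N ≤ x ∧ ∃ m n : ℕ, m * n = 3 * N ∧
      ((n ≤ m ∧ ∃ t : ℕ, t ^ 2 = 9 * m ^ 2 + 30 * m * n + 9 * n ^ 2) ∨
       (3 * n ≤ m ∧ ∃ t : ℕ, t ^ 2 + 30 * m * n = 9 * m ^ 2 + 9 * n ^ 2))}.ncard : ℕ) : ℝ) ≤
      2 * (4 * Nat.sqrt (3 * x) : ℕ) * (1 + Real.log ((4 * Nat.sqrt (3 * x) : ℕ) : ℝ)) ^ 2 := by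
  classical
  set Z := Nat.sqrt (3 * x) with hZ
  set P := ((Icc 1 Z) ×ˢ (Icc 1 (4 * Z))).filter (fun q : ℕ × ℕ => q.2 ∣ (4 * q.1) ^ 2) with hP
  set g1 : ℕ × ℕ → ℕ := fun q => (((q.2 + (4 * q.1) ^ 2 / q.2) / 2 - 5 * q.1) / 3) * q.1 / 3 with hg1
  set g2 : ℕ × ℕ → ℕ := fun q => (((q.2 + (4 * q.1) ^ 2 / q.2) / 2 + 5 * q.1) / 3) * q.1 / 3 with hg2
  have hsub : {N : ℕ | 1 ≤ N ∧ N ≤ x ∧ ∃ m n : ℕ, m * n = 3 * N ∧
      ((n ≤ m ∧ ∃ t : ℕ, t ^ 2 = 9 * m ^ 2 + 30 * m * n + 9 * n ^ 2) ∨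
       (3 * n ≤ m ∧ ∃ t : ℕ, t ^ 2 + 30 * m * n = 9 * m ^ 2 + 9 * n ^ 2))} ⊆
      ((P.image g1 ∪ P.image g2 : Finset ℕ) : Set ℕ) := by
    rintro N ⟨hN1, hNx, m, n, hmn, hor⟩
    have hn : 1 ≤ n := by
      rcases Nat.eq_zero_or_pos n with h | h
      · subst h; omega
      · exact h
    have hnm : n ≤ m := by
      rcases hor with h | h
      · exact h.1
      · omega
    have hnZ : n ≤ Z := by
      rw [hZ, Nat.le_sqrt]
      calc n * n ≤ m * n := Nat.mul_le_mul_right n hnm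
        _ = 3 * N := hmn
        _ ≤ 3 * x := by omega
    rw [coe_union, Set.mem_union, mem_coe, mem_coe, mem_image, mem_image]
    rcases hor with ⟨_, t, ht⟩ | ⟨h3, t, ht⟩
    · left
      obtain ⟨e, he1, he2, he3, he4⟩ := key n (3 * m + 5 * n) t hn (by nlinarith)
      refine ⟨(n, e), ?_, ?_⟩
      · rw [hP, mem_filter, mem_product, mem_Icc, mem_Icc]
        exact ⟨⟨⟨hn, hnZ⟩, he1, by simp only; omega⟩, he3⟩
      · simp only [hg1, he4]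
        have : (3 * m + 5 * n - 5 * n) / 3 = m := by omega
        rw [this, hmn]
        omega
    · right
      obtain ⟨u, hu⟩ : ∃ u, 3 * m = 5 * n + u := ⟨3 * m - 5 * n, by omega⟩
      have hu2 : u ^ 2 = t ^ 2 + 16 * n ^ 2 := by
        have h9 : 9 * m ^ 2 = (5 * n + u) ^ 2 := by rw [← hu]; ring
        have h10 : 30 * m * n = 10 * n * (5 * n + u) := by rw [← hu]; ring
        rw [h9, h10] at ht
        nlinarith
      obtain ⟨e, he1, he2, he3, he4⟩ := key n u t hn hu2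
      refine ⟨(n, e), ?_, ?_⟩
      · rw [hP, mem_filter, mem_product, mem_Icc, mem_Icc]
        exact ⟨⟨⟨hn, hnZ⟩, he1, by simp only; omega⟩, he3⟩
      · simp only [hg2, he4]
        have : (u + 5 * n) / 3 = m := by omega
        rw [this, hmn]
        omega
  have h1 := Set.ncard_le_ncard hsub (Finset.finite_toSet _)
  rw [Set.ncard_coe_finset] at h1
  have h2 : (P.image g1 ∪ P.image g2).card ≤ 2 * P.card := by
    calc (P.image g1 ∪ P.image g2).card ≤ (P.image g1).card + (P.image g2).card := card_union_le _ _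
      _ ≤ P.card + P.card := Nat.add_le_add card_image_le card_image_le
      _ = 2 * P.card := by ring
  have h3 := cardP Z
  have h4 := h1.trans h2
  have h5 : ((({N : ℕ | 1 ≤ N ∧ N ≤ x ∧ ∃ m n : ℕ, m * n = 3 * N ∧
      ((n ≤ m ∧ ∃ t : ℕ, t ^ 2 = 9 * m ^ 2 + 30 * m * n + 9 * n ^ 2) ∨
       (3 * n ≤ m ∧ ∃ t : ℕ, t ^ 2 + 30 * m * n = 9 * m ^ 2 + 9 * n ^ 2))}.ncard : ℕ) : ℝ)) ≤
      2 * (P.card : ℝ) := by exact_mod_cast h4
  refine h5.trans ?_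
  rw [mul_assoc]
  exact mul_le_mul_of_nonneg_left h3 (by norm_num)

end Pool.Agent.Helper549.Tri2.CntJob
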