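import Mathlib
set_option autoImplicit false

namespace Pool.Agent.Helper549.Tri2.Count

/-- a squarefree number all of whose prime factors are at most 13 divides 30030 -/
theorem dvd_30030 (a : ℕ) (ha : Squarefree a) (h : ∀ p : ℕ, p.Prime → p ∣ a → p < 17) :
    a ∣ 30030 := by
  rw [← Nat.prod_primeFactors_of_squarefree ha]
  have hsub : a.primeFactors ⊆ ({2, 3, 5, 7, 11, 13} : Finset ℕ) := by
    intro p hp
    have hp1 := Nat.prime_of_mem_primeFactors hp
    have hp2 := h p hp1 (Nat.dvd_of_mem_primeFactors hp)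
    clear hp
    revert hp1
    interval_cases p <;> decide
  have h2 : (30030 : ℕ) = ∏ p ∈ ({2, 3, 5, 7, 11, 13} : Finset ℕ), p := by decide
  rw [h2]
  exact Finset.prod_dvd_prod_of_subset _ _ _ hsub

/-- if every prime `l ≥ 17` has an even exponent in `N > 0`, then `N = d b^2` with `d ∣ 30030` -/
theorem form (N : ℕ) (hN : 0 < N) (h : ∀ l : ℕ, l.Prime → 17 ≤ l → ¬ Odd (N.factorization l)) :
    ∃ d b : ℕ, d ∣ 30030 ∧ 0 < b ∧ N = d * b ^ 2 := by
  obtain ⟨a, b, ha, hb, hab, hsq⟩ := Nat.sq_mul_squarefree_of_pos hN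
  refine ⟨a, b, ?_, hb, by rw [← hab]; ring⟩
  apply dvd_30030 a hsq
  intro p hp hpa
  by_contra hcon
  push Not at hcon
  apply h p hp hcon
  rw [← hab, Nat.factorization_mul (pow_pos hb 2).ne' ha.ne', Nat.factorization_pow]
  have h1 : a.factorization p = 1 := by
    have h2 := hsq.natFactorization_le_one p
    have h3 := (hp.factorization_pos_of_dvd ha.ne' hpa)
    omega
  simp only [Finsupp.coe_add, Finsupp.coe_smul, Pi.add_apply, Pi.smul_apply, smul_eq_mul, h1]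
  exact ⟨b.factorization p, rfl⟩

theorem even_of (d b N : ℕ) (hN : N = d * b ^ 2) (h2 : N % 4 = 2) : ∃ e, d = 2 * e := by
  have hdeven : d % 2 = 0 := by
    by_contra hcon
    have hd1 : d % 2 = 1 := by omega
    rcases Nat.even_or_odd' b with ⟨c, hc | hc⟩
    · have : N = 4 * (d * c ^ 2) := by rw [hN, hc]; ring
      omega
    · have h3 : b ^ 2 = 2 * (2 * c ^ 2 + 2 * c) + 1 := by rw [hc]; ring
      have h4 : N % 2 = 1 := by
        rw [hN, Nat.mul_mod, hd1, h3]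
        omega
      omega
  exact ⟨d / 2, by omega⟩

theorem count_le (Q : ℕ → Prop)
    (hQ : ∀ N, N % 4 = 2 → Q N → ∀ l : ℕ, l.Prime → 17 ≤ l → ¬ Odd (N.factorization l)) (x : ℕ) :
    {N : ℕ | N ≤ x ∧ N % 4 = 2 ∧ Q N}.ncard ≤ 32 * Nat.sqrt x := by
  obtain ⟨D, hD⟩ : ∃ D : Finset ℕ, D = Nat.divisors 15015 := ⟨_, rfl⟩
  have hsub : {N : ℕ | N ≤ x ∧ N % 4 = 2 ∧ Q N} ⊆
      ↑((D ×ˢ (Finset.Icc 1 (Nat.sqrt x))).image
        (fun p : ℕ × ℕ => 2 * p.1 * p.2 ^ 2)) := by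
    intro N hNN
    rw [Set.mem_ofPred_eq] at hNN
    obtain ⟨hx, h2, hq⟩ := hNN
    obtain ⟨d, b, hd, hb, hN⟩ := form N (by omega) (hQ N h2 hq)
    obtain ⟨e, he⟩ := even_of d b N hN h2
    have he2 : e ∣ 15015 := by
      have h30 : (30030 : ℕ) = 2 * 15015 := by norm_num
      rw [he, h30] at hd
      exact Nat.dvd_of_mul_dvd_mul_left Nat.zero_lt_two hd
    have hbx : b ≤ Nat.sqrt x := by
      rw [Nat.le_sqrt']
      refine le_trans ?_ hx
      rw [hN]
      have hd0 : 0 < d := Nat.pos_of_ne_zero (fun h0 => by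
        rw [h0, Nat.zero_mul] at hN
        rw [hN] at h2
        exact absurd h2 (by decide))
      exact Nat.le_mul_of_pos_left _ hd0
    rw [Finset.mem_coe, Finset.mem_image]
    refine ⟨(e, b), ?_, ?_⟩
    · rw [Finset.mem_product, hD, Nat.mem_divisors, Finset.mem_Icc]
      exact ⟨⟨he2, by norm_num⟩, hb, hbx⟩
    · show 2 * e * b ^ 2 = N
      rw [hN, he]
  refine (Set.ncard_le_ncard hsub (Finset.finite_toSet _)).trans ?_
  rw [Set.ncard_coe_finset]
  refine Finset.card_image_le.trans ?_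
  rw [Finset.card_product, Nat.card_Icc]
  have hcard : (Nat.divisors 15015).card = 32 := by
    have h1 : (15015 : ℕ) = 3 * (5 * (7 * (11 * 13))) := by norm_num
    rw [h1, Nat.Coprime.card_divisors_mul (by norm_num), Nat.Coprime.card_divisors_mul (by norm_num),
      Nat.Coprime.card_divisors_mul (by norm_num), Nat.Coprime.card_divisors_mul (by norm_num),
      Nat.Prime.divisors (by norm_num), Nat.Prime.divisors (by norm_num),
      Nat.Prime.divisors (by norm_num), Nat.Prime.divisors (by norm_num),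
      Nat.Prime.divisors (by norm_num)]
    decide
  rw [hD, hcard, Nat.add_sub_cancel]

theorem two_mod_four_card (x : ℕ) : x ≤ 4 * {N : ℕ | N ≤ x ∧ N % 4 = 2}.ncard + 1 := by
  have h : {N : ℕ | N ≤ x ∧ N % 4 = 2} =
      ↑((Finset.range ((x + 2) / 4)).image (fun k => 4 * k + 2)) := by
    ext N
    rw [Set.mem_ofPred_eq, Finset.mem_coe, Finset.mem_image]
    constructor
    · rintro ⟨h1, h2⟩
      refine ⟨N / 4, ?_, by omega⟩
      rw [Finset.mem_range]
      omega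
    · rintro ⟨k, hk, rfl⟩
      rw [Finset.mem_range] at hk
      omega
  rw [h, Set.ncard_coe_finset, Finset.card_image_of_injective _ (fun a b hab => by
    have h' : 4 * a + 2 = 4 * b + 2 := hab
    omega), Finset.card_range]
  omega

theorem missing (Q : ℕ → Prop)
    (hQ : ∀ N, N % 4 = 2 → Q N → ∀ l : ℕ, l.Prime → 17 ≤ l → ¬ Odd (N.factorization l)) (x : ℕ) :
    x ≤ 4 * {N : ℕ | 1 ≤ N ∧ N ≤ x ∧ ¬ Q N}.ncard + 128 * Nat.sqrt x + 1 := by
  have hsub : {N : ℕ | N ≤ x ∧ N % 4 = 2} ⊆ {N : ℕ | 1 ≤ N ∧ N ≤ x ∧ ¬ Q N} ∪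
      {N : ℕ | N ≤ x ∧ N % 4 = 2 ∧ Q N} := by
    rintro N ⟨h1, h2⟩
    by_cases hq : Q N
    · exact Or.inr ⟨h1, h2, hq⟩
    · exact Or.inl ⟨by omega, h1, hq⟩
  have hf1 : {N : ℕ | 1 ≤ N ∧ N ≤ x ∧ ¬ Q N}.Finite :=
    (Set.finite_Icc 1 x).subset (fun N hN => ⟨hN.1, hN.2.1⟩)
  have hf2 : {N : ℕ | N ≤ x ∧ N % 4 = 2 ∧ Q N}.Finite :=
    (Set.finite_Icc 0 x).subset (fun N hN => ⟨Nat.zero_le _, hN.1⟩)
  have h1 := Set.ncard_le_ncard hsub (hf1.union hf2)
  have h2 := Set.ncard_union_le {N : ℕ | 1 ≤ N ∧ N ≤ x ∧ ¬ Q N} {N : ℕ | N ≤ x ∧ N % 4 = 2 ∧ Q N}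
  have h3 := count_le Q hQ x
  have h4 := two_mod_four_card x
  omega

end Pool.Agent.Helper549.Tri2.Count
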