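import Mathlib
import Pool.Agent.Helper549.Tri.Defs
import Pool.Agent.Helper549.Tri.Basic
import Pool.Agent.Helper549.Tri.Angles
import Pool.Agent.Helper549.Tri.Line
import Pool.Agent.Helper549.Tri.Char
import Pool.Agent.Helper549.Tri.Odd
import Pool.Agent.Helper549.Tri.RealChar
import Pool.Agent.Helper549.Tri.Setup
set_option autoImplicit false
noncomputable section
open scoped BigOperators
open MeasureTheory

namespace Pool.Agent.Helper549.Tri2.Cubic
open Pool.Agent.Helper549.Tri Pool.Agent.Helper549.Tri.Basic Pool.Agent.Helper549.Tri.Angles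
open Pool.Agent.Helper549.Tri.Line Pool.Agent.Helper549.Tri.Char Pool.Agent.Helper549.Tri.Odd
open Pool.Agent.Helper549.Tri.RealChar

/-- the odd functional identity composed with an additive function on lengths -/
theorem odd_sum_f {N : ℕ} {T : Fin 3 → ℂ} {t : Fin N → Fin 3 → ℂ} (h : Dis N T t) (f : ℝ →+ ℝ)
    (φ : ℂ → ℂ) (hφ : ∀ z, φ (-z) = - φ z) :
    ∑ i, ∑ k, (f (len (t i) k) : ℂ) * φ (dir (t i) k) = ∑ k, (f (len T k) : ℂ) * φ (dir T k) := by
  classical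
  have H := odd_core (ι := (Fin N × Fin 3) ⊕ Fin 3)
    (Sum.elim (fun p => dir (t p.1) p.2) (fun k => dir T k))
    (Sum.elim (fun p => lev (t p.1) p.2) (fun k => lev T k))
    (Sum.elim (fun p => f (len (t p.1) p.2)) (fun k => - f (len T k)))
    (by
      rintro (⟨i, k⟩ | k)
      · exact norm_dir (t i) (h.ccwt i) k
      · exact norm_dir T h.ccwT k)
    (by
      intro u hu s
      have hl0 := line_sum h u hu s
      have hl1 := congrArg f hl0
      rw [map_sum, map_sum] at hl1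
      have hl : (∑ i, ∑ k, f (len (t i) k) * ((if dir (t i) k = u ∧ lev (t i) k = s then (1:ℝ) else 0) -
          (if dir (t i) k = -u ∧ lev (t i) k = -s then 1 else 0))) =
          ∑ k, f (len T k) * ((if dir T k = u ∧ lev T k = s then (1:ℝ) else 0) -
          (if dir T k = -u ∧ lev T k = -s then 1 else 0)) := by
        refine Eq.trans ?_ (hl1.trans ?_)
        · refine Finset.sum_congr rfl fun i _ => ?_
          rw [map_sum]
          refine Finset.sum_congr rfl fun k _ => ?_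
          split_ifs <;> simp
        · refine Finset.sum_congr rfl fun k _ => ?_
          split_ifs <;> simp
      rw [Fintype.sum_sum_type, Fintype.sum_prod_type]
      have h3 := sub_eq_zero.mpr hl
      rw [sub_eq_add_neg, ← Finset.sum_neg_distrib] at h3
      refine Eq.trans (congrArg₂ (· + ·) (Finset.sum_congr rfl fun i _ =>
        Finset.sum_congr rfl fun k _ => ?_) (Finset.sum_congr rfl fun k _ => ?_)) h3
      · simp only [Sum.elim_inl]
        congr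
      · simp only [Sum.elim_inr]
        rw [neg_mul]
        congr)
    φ hφ
  rw [Fintype.sum_sum_type, Fintype.sum_prod_type] at H
  simp only [Sum.elim_inl, Sum.elim_inr] at H
  have h2 : ∑ k, ((-f (len T k) : ℝ) : ℂ) * φ (dir T k) =
      - ∑ k, (f (len T k) : ℂ) * φ (dir T k) := by
    rw [← Finset.sum_neg_distrib]
    refine Finset.sum_congr rfl fun k _ => ?_
    push_cast
    ring
  rw [h2] at H
  linear_combination H

theorem sum3K (g : Fin 3 → ℂ) (K : Fin 3) : ∑ k, g k = g K + g (K + 1) + g (K + 2) := by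
  rw [Fin.sum_univ_three]
  fin_cases K
  · rfl
  · show g 0 + g 1 + g 2 = g 1 + g 2 + g 0
    ring
  · show g 0 + g 1 + g 2 = g 2 + g 0 + g 1
    ring

theorem e22 : ∀ K : Fin 3, K + 2 + 2 = K + 1 := by decide
theorem e21 : ∀ K : Fin 3, K + 2 + 1 = K := by decide
theorem e12 : ∀ K : Fin 3, K + 1 + 2 = K := by decide
theorem e11 : ∀ K : Fin 3, K + 1 + 1 = K + 2 := by decide

/-- the contribution of one tile -/
theorem tile_f {N : ℕ} {t : Fin N → Fin 3 → ℂ} (hccw : ∀ i, 0 < dd (t i))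
    (τ : Fin N → Equiv.Perm (Fin 3)) (ℓ θ : Fin 3 → ℝ) (hlen : ∀ i m, len (t i) m = ℓ (τ i m))
    (hang : ∀ i m, ang (t i) m = θ (τ i m)) (f : ℝ →+ ℝ) (φ : ℂ → ℂ) (X : Fin 3 → ℂ)
    (hX : ∀ k, X k ≠ 0) (f1 : ∀ z, φ (-z) = - φ z)
    (f3 : ∀ z k, φ (Complex.exp ((θ k : ℂ) * Complex.I) * z) = X k * φ z) (i : Fin N) :
    (τ i ((τ i).symm 2 + 1) = 0 ∧ ∑ k, (f (len (t i) k) : ℂ) * φ (dir (t i) k) =
      φ (dir (t i) ((τ i).symm 2)) * (f (ℓ 2) - (X 1)⁻¹ * f (ℓ 0) - X 0 * f (ℓ 1))) ∨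
    (τ i ((τ i).symm 2 + 1) = 1 ∧ ∑ k, (f (len (t i) k) : ℂ) * φ (dir (t i) k) =
      φ (dir (t i) ((τ i).symm 2)) * (f (ℓ 2) - X 1 * f (ℓ 0) - (X 0)⁻¹ * f (ℓ 1))) := by
  have finv : ∀ k z, φ (Complex.exp (-(θ k : ℂ) * Complex.I) * z) = (X k)⁻¹ * φ z := by
    intro k z
    have h1 := f3 (Complex.exp (-(θ k : ℂ) * Complex.I) * z) k
    rw [← mul_assoc, ← Complex.exp_add, neg_mul, add_neg_cancel, Complex.exp_zero, one_mul] at h1
    rw [h1, neg_mul, inv_mul_cancel_left₀ (hX k)]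
  obtain ⟨K, hK⟩ : ∃ K, K = (τ i).symm 2 := ⟨_, rfl⟩
  rw [← hK]
  have hK2 : τ i K = 2 := by rw [hK, Equiv.apply_symm_apply]
  have r1 : φ (dir (t i) (K + 1)) = - ((X (τ i (K + 2)))⁻¹ * φ (dir (t i) K)) := by
    have h1 := dir_rel (t i) (hccw i) (K + 2)
    rw [e22, e21, hang] at h1
    rw [h1, neg_mul, f1, finv]
  have r2 : φ (dir (t i) (K + 2)) = - (X (τ i (K + 1)) * φ (dir (t i) K)) := by
    have h1 := dir_rel (t i) (hccw i) (K + 1)
    rw [e12, e11, hang] at h1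
    have h2 : φ (dir (t i) K) = - ((X (τ i (K + 1)))⁻¹ * φ (dir (t i) (K + 2))) := by
      conv_lhs => rw [h1]
      rw [neg_mul, f1, finv]
    rw [h2, mul_neg, neg_neg, mul_inv_cancel_left₀ (hX _)]
  rcases Setup.perm3 (τ i) K with ⟨h1, h2⟩ | ⟨h1, h2⟩
  · left
    have g1 : τ i (K + 1) = 0 := by rw [h1, hK2]; rfl
    have g2 : τ i (K + 2) = 1 := by rw [h2, hK2]; rfl
    refine ⟨g1, ?_⟩
    rw [sum3K _ K, hlen, hlen, hlen, r1, r2, hK2, g1, g2]
    ring
  · right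
    have g1 : τ i (K + 1) = 1 := by rw [h1, hK2]; rfl
    have g2 : τ i (K + 2) = 0 := by rw [h2, hK2]; rfl
    refine ⟨g1, ?_⟩
    rw [sum3K _ K, hlen, hlen, hlen, r1, r2, hK2, g1, g2]
    ring

/-- the total contribution of all tiles -/
theorem total_f {N : ℕ} {t : Fin N → Fin 3 → ℂ} (hccw : ∀ i, 0 < dd (t i))
    (τ : Fin N → Equiv.Perm (Fin 3)) (ℓ θ : Fin 3 → ℝ) (hlen : ∀ i m, len (t i) m = ℓ (τ i m))
    (hang : ∀ i m, ang (t i) m = θ (τ i m)) (φ : ℂ → ℂ) (X : Fin 3 → ℂ)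
    (hX : ∀ k, X k ≠ 0) (f1 : ∀ z, φ (-z) = - φ z)
    (f3 : ∀ z k, φ (Complex.exp ((θ k : ℂ) * Complex.I) * z) = X k * φ z) :
    ∃ A B : ℂ, A + B = ∑ i, φ (dir (t i) ((τ i).symm 2)) ∧ ∀ f : ℝ →+ ℝ,
      ∑ i, ∑ k, (f (len (t i) k) : ℂ) * φ (dir (t i) k) =
      A * (f (ℓ 2) - (X 1)⁻¹ * f (ℓ 0) - X 0 * f (ℓ 1)) +
      B * (f (ℓ 2) - X 1 * f (ℓ 0) - (X 0)⁻¹ * f (ℓ 1)) := by
  classical
  refine ⟨∑ i, if τ i ((τ i).symm 2 + 1) = 0 then φ (dir (t i) ((τ i).symm 2)) else 0,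
    ∑ i, if τ i ((τ i).symm 2 + 1) = 0 then 0 else φ (dir (t i) ((τ i).symm 2)), ?_, ?_⟩
  · rw [← Finset.sum_add_distrib]
    refine Finset.sum_congr rfl fun i _ => ?_
    split_ifs <;> simp
  · intro f
    rw [Finset.sum_mul, Finset.sum_mul, ← Finset.sum_add_distrib]
    refine Finset.sum_congr rfl fun i _ => ?_
    rcases tile_f hccw τ ℓ θ hlen hang f φ X hX f1 f3 i with ⟨h1, h2⟩ | ⟨h1, h2⟩
    · rw [h2, if_pos h1, if_pos h1]; ring
    · rw [h2, if_neg (by rw [h1]; decide), if_neg (by rw [h1]; decide)]; ring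

end Pool.Agent.Helper549.Tri2.Cubic
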