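import Mathlib
import Pool.Agent.Helper549.Tri2.Cubic
set_option autoImplicit false
noncomputable section
open scoped BigOperators
open MeasureTheory

namespace Pool.Agent.Helper549.Tri2.Cubic
open Pool.Agent.Helper549.Tri Pool.Agent.Helper549.Tri.Basic Pool.Agent.Helper549.Tri.Angles
open Pool.Agent.Helper549.Tri.Line Pool.Agent.Helper549.Tri.Char Pool.Agent.Helper549.Tri.Odd
open Pool.Agent.Helper549.Tri.RealChar

/-- the primitive sixth root of unity `exp(iπ/3)` -/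
def om : ℂ := Complex.exp (((Real.pi / 3 : ℝ) : ℂ) * Complex.I)

theorem om_eq : om = ((1 / 2 : ℝ) : ℂ) + ((Real.sqrt 3 / 2 : ℝ) : ℂ) * Complex.I := by
  rw [om, Complex.exp_mul_I, ← Complex.ofReal_cos, ← Complex.ofReal_sin, Real.cos_pi_div_three,
    Real.sin_pi_div_three]

theorem om_sq : om ^ 2 = om - 1 := by
  rw [om_eq]
  have h3 : (((Real.sqrt 3 / 2 : ℝ) : ℂ)) ^ 2 = 3 / 4 := by
    have : (Real.sqrt 3 / 2 : ℝ) ^ 2 = 3 / 4 := by
      rw [div_pow, Real.sq_sqrt (by norm_num)]; norm_num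
    rw [← Complex.ofReal_pow, this]
    norm_num
  have hI := Complex.I_sq
  push_cast at h3 ⊢
  linear_combination (Complex.I ^ 2) * h3 + (3 / 4 : ℂ) * hI

theorem om_ne : om ≠ 0 := Complex.exp_ne_zero _

theorem om_inv : om⁻¹ = 1 - om := by
  have h := om_sq
  rw [inv_eq_iff_eq_inv, eq_comm, inv_eq_iff_eq_inv, eq_comm]
  apply inv_eq_of_mul_eq_one_left
  linear_combination -h

theorem om_lin (p q : ℤ) (h : (p : ℂ) + q * om = 0) : p = 0 ∧ q = 0 := by
  rw [om_eq] at h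
  have him := congrArg Complex.im h
  have hre := congrArg Complex.re h
  simp at him hre
  have hq : q = 0 := by
    exact_mod_cast him
  constructor
  · rw [hq] at hre
    simp at hre
    exact_mod_cast hre
  · exact hq

theorem om_pow (j : ℤ) : ∃ p q r : ℤ, om ^ j = (p : ℂ) + q * om ∧ ((-1 : ℂ)) ^ j = (r : ℂ) ∧
    (3 : ℤ) ∣ p - q - r := by
  induction j using Int.induction_on with
  | zero => exact ⟨1, 0, 1, by simp, by simp, by norm_num⟩
  | succ j ih =>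
    obtain ⟨p, q, r, h1, h2, h3⟩ := ih
    refine ⟨-q, p + q, -r, ?_, ?_, ?_⟩
    · rw [zpow_add₀ om_ne, h1, zpow_one]
      push_cast
      linear_combination (q : ℂ) * om_sq
    · rw [zpow_add₀ (by norm_num), h2, zpow_one]
      push_cast
      ring
    · omega
  | pred j ih =>
    obtain ⟨p, q, r, h1, h2, h3⟩ := ih
    refine ⟨p + q, -p, -r, ?_, ?_, ?_⟩
    · rw [zpow_sub₀ om_ne, h1, zpow_one, div_eq_mul_inv, om_inv]
      push_cast
      linear_combination (-(q : ℂ)) * om_sq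
    · rw [zpow_sub₀ (by norm_num), h2, zpow_one]
      push_cast
      ring
    · omega

theorem om_pow_sub (e : ℕ) (he : e = 1 ∨ e = 2) : (om ^ e)⁻¹ - om ^ e ≠ 0 := by
  have him : om.im ≠ 0 := by
    rw [om_eq]
    simp
  rcases he with rfl | rfl
  · rw [pow_one, om_inv]
    intro h
    have := congrArg Complex.im h
    simp at this
    apply him
    linarith
  · rw [← inv_pow, om_inv, om_sq]
    intro h
    have h2 : (1 - om) ^ 2 - (om - 1) = 1 - 2 * om := by linear_combination om_sq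
    rw [h2] at h
    have := congrArg Complex.im h
    simp at this
    exact him this

/-- value of the two characters at the same direction -/
theorem val_cong (ε : ℤ) (hε : ε = 1 ∨ ε = -1) (e1 e2 : ℕ) (m : ℤ) (x : Fin 3 → ℤ) :
    ∃ p q r : ℤ,
      ((-1 : ℂ)) ^ m * ∏ k, (![(ε : ℂ), (ε : ℂ) * om ^ e1, om ^ e2] : Fin 3 → ℂ) k ^ x k =
        (p : ℂ) + q * om ∧
      ((-1 : ℂ)) ^ m * ∏ k, (![(ε : ℂ), (ε : ℂ) * (-1) ^ e1, (-1) ^ e2] : Fin 3 → ℂ) k ^ x k =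
        (r : ℂ) ∧ (r = 1 ∨ r = -1) ∧ (3 : ℤ) ∣ p - q - r := by
  have hεC : (ε : ℂ) = 1 ∨ (ε : ℂ) = -1 := by
    rcases hε with rfl | rfl
    · left; norm_num
    · right; norm_num
  have hε0 : (ε : ℂ) ≠ 0 := by rcases hεC with h | h <;> rw [h] <;> norm_num
  obtain ⟨p, q, r, h1, h2, h3⟩ := om_pow ((e1 : ℤ) * x 1 + (e2 : ℤ) * x 2)
  have hu : ∃ u : ℤ, (u = 1 ∨ u = -1) ∧ ((-1 : ℂ)) ^ m * (ε : ℂ) ^ (x 0 + x 1) = (u : ℂ) := by
    rcases pm_mul _ _ (pm_zpow _ (Or.inr rfl) m) (pm_zpow _ hεC (x 0 + x 1)) with h | h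
    · exact ⟨1, Or.inl rfl, by rw [h]; norm_num⟩
    · exact ⟨-1, Or.inr rfl, by rw [h]; norm_num⟩
  obtain ⟨u, hu1, hu2⟩ := hu
  have hr : r = 1 ∨ r = -1 := by
    rcases pm_zpow (-1) (Or.inr rfl) ((e1 : ℤ) * x 1 + (e2 : ℤ) * x 2) with h | h
    · left; rw [h] at h2; exact_mod_cast h2.symm
    · right; rw [h] at h2; exact_mod_cast h2.symm
  refine ⟨u * p, u * q, u * r, ?_, ?_, ?_, ?_⟩
  · rw [Fin.prod_univ_three]
    simp only [Matrix.cons_val_zero, Matrix.cons_val_one, Matrix.cons_val]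
    have e : ((-1 : ℂ)) ^ m * ((ε : ℂ) ^ x 0 * ((ε : ℂ) * om ^ e1) ^ x 1 * (om ^ e2) ^ x 2) =
        (((-1 : ℂ)) ^ m * (ε : ℂ) ^ (x 0 + x 1)) * om ^ ((e1 : ℤ) * x 1 + (e2 : ℤ) * x 2) := by
      rw [zpow_add₀ hε0, zpow_add₀ om_ne, zpow_mul, zpow_mul, mul_zpow, zpow_natCast, zpow_natCast]
      ring
    rw [e, hu2, h1]
    push_cast
    ring
  · rw [Fin.prod_univ_three]
    simp only [Matrix.cons_val_zero, Matrix.cons_val_one, Matrix.cons_val]
    have e : ((-1 : ℂ)) ^ m * ((ε : ℂ) ^ x 0 * ((ε : ℂ) * (-1) ^ e1) ^ x 1 * ((-1) ^ e2) ^ x 2) =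
        (((-1 : ℂ)) ^ m * (ε : ℂ) ^ (x 0 + x 1)) * (-1) ^ ((e1 : ℤ) * x 1 + (e2 : ℤ) * x 2) := by
      rw [zpow_add₀ hε0, zpow_add₀ (by norm_num), zpow_mul, zpow_mul, mul_zpow, zpow_natCast,
        zpow_natCast]
      ring
    rw [e, hu2, h2]
    push_cast
    ring
  · exact ipm_mul _ _ hu1 hr
  · have : u * p - u * q - u * r = u * (p - q - r) := by ring
    rw [this]
    exact Dvd.dvd.mul_left h3 u

end Pool.Agent.Helper549.Tri2.Cubic
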