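import Mathlib
import Pool.Agent.Helper549.Tri2.Cubic2
set_option autoImplicit false
noncomputable section
open scoped BigOperators
open MeasureTheory

namespace Pool.Agent.Helper549.Tri2.Cubic
open Pool.Agent.Helper549.Tri Pool.Agent.Helper549.Tri.Basic Pool.Agent.Helper549.Tri.Angles
open Pool.Agent.Helper549.Tri.Line Pool.Agent.Helper549.Tri.Char Pool.Agent.Helper549.Tri.Odd
open Pool.Agent.Helper549.Tri.RealChar

theorem exists_f (a c : ℝ) (h : ¬ ∃ q : ℚ, a = q * c) : ∃ f : ℝ →+ ℝ, f c = 0 ∧ f a ≠ 0 ∧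
    ∀ (q : ℚ) (x : ℝ), f (q * x) = q * f x := by
  have hn : a ∉ Submodule.span ℚ ({c} : Set ℝ) := by
    intro hm
    obtain ⟨q, hq⟩ := Submodule.mem_span_singleton.1 hm
    exact h ⟨q, by rw [← hq, Rat.smul_def]⟩
  obtain ⟨g, hg, hmap⟩ := Submodule.exists_dual_map_eq_bot_of_notMem hn inferInstance
  refine ⟨(algebraMap ℚ ℝ).toAddMonoidHom.comp g.toAddMonoidHom, ?_, ?_, ?_⟩
  · have h1 : g c ∈ (Submodule.span ℚ ({c} : Set ℝ)).map g :=
      Submodule.mem_map_of_mem (Submodule.mem_span_singleton_self c)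
    rw [hmap, Submodule.mem_bot] at h1
    show (algebraMap ℚ ℝ) (g c) = 0
    rw [h1, map_zero]
  · show (algebraMap ℚ ℝ) (g a) ≠ 0
    intro h1
    exact hg ((algebraMap ℚ ℝ).injective (by rw [h1, map_zero]))
  · intro q x
    show (algebraMap ℚ ℝ) (g (q * x)) = q * (algebraMap ℚ ℝ) (g x)
    rw [← Rat.smul_def, map_smul, smul_eq_mul, map_mul]
    rfl

/-- sum of the character over the sides of an equilateral triangle -/
theorem side_sum {T : Fin 3 → ℂ} (hT : 0 < dd T) (hTa : ∀ k, ang T k = Real.pi / 3)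
    (φ : ℂ → ℂ) (f1 : ∀ z, φ (-z) = - φ z) (Z : ℂ)
    (hc : ∀ z, φ (Complex.exp (-((Real.pi / 3 : ℝ) : ℂ) * Complex.I) * z) = Z * φ z) :
    φ (dir T 2) = - (Z * φ (dir T 1)) ∧ φ (dir T 0) = - (Z * φ (dir T 2)) := by
  constructor
  · have h1 := dir_rel T hT 0
    rw [hTa] at h1
    have h2 : dir T 2 = -Complex.exp (-((Real.pi / 3 : ℝ) : ℂ) * Complex.I) * dir T 1 := h1
    rw [h2, neg_mul, f1, hc]
  · have h1 := dir_rel T hT 1
    rw [hTa] at h1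
    have h2 : dir T 0 = -Complex.exp (-((Real.pi / 3 : ℝ) : ℂ) * Complex.I) * dir T 2 := h1
    rw [h2, neg_mul, f1, hc]

theorem corner_char (θ : Fin 3 → ℝ) (φ : ℂ → ℂ) (X : Fin 3 → ℂ) (hX : ∀ k, X k ≠ 0)
    (f3 : ∀ z k, φ (Complex.exp ((θ k : ℂ) * Complex.I) * z) = X k * φ z) (Z : ℂ)
    (hZ : (θ 2 = Real.pi / 3 ∧ Z = (X 2)⁻¹) ∨ (θ 0 + θ 1 = Real.pi / 3 ∧ Z = (X 0 * X 1)⁻¹)) (z : ℂ) :
    φ (Complex.exp (-((Real.pi / 3 : ℝ) : ℂ) * Complex.I) * z) = Z * φ z := by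
  have finv : ∀ k z, φ (Complex.exp (-(θ k : ℂ) * Complex.I) * z) = (X k)⁻¹ * φ z := by
    intro k z
    have h1 := f3 (Complex.exp (-(θ k : ℂ) * Complex.I) * z) k
    rw [← mul_assoc, ← Complex.exp_add, neg_mul, add_neg_cancel, Complex.exp_zero, one_mul] at h1
    rw [h1, neg_mul, inv_mul_cancel_left₀ (hX k)]
  rcases hZ with ⟨h1, h2⟩ | ⟨h1, h2⟩
  · rw [← h1, finv, h2]
  · rw [← h1]
    have h3 : Complex.exp (-((θ 0 + θ 1 : ℝ) : ℂ) * Complex.I) * z =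
        Complex.exp (-(θ 0 : ℂ) * Complex.I) * (Complex.exp (-(θ 1 : ℂ) * Complex.I) * z) := by
      rw [← mul_assoc, ← Complex.exp_add]
      congr 2
      push_cast
      ring
    rw [h3, finv, finv, h2, mul_inv, mul_assoc]

/-- the tile sums of an incommensurable tiling are divisible by 3 -/
theorem cubic_core {N : ℕ} {T : Fin 3 → ℂ} {t : Fin N → Fin 3 → ℂ} (h : Dis N T t)
    (τ : Fin N → Equiv.Perm (Fin 3)) (ℓ θ : Fin 3 → ℝ) (hlen : ∀ i m, len (t i) m = ℓ (τ i m))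
    (hang : ∀ i m, ang (t i) m = θ (τ i m)) (hsum : θ 0 + θ 1 + θ 2 = Real.pi)
    (hirr : ¬ ∀ k, ∃ q : ℚ, θ k = q * Real.pi)
    (s : ℝ) (hTs : ∀ k, len T k = s) (hTa : ∀ k, ang T k = Real.pi / 3)
    (e1 e2 : ℕ) (he : (θ 2 = Real.pi / 3 ∧ e1 = 2 ∧ e2 = 1) ∨
      (θ 0 + θ 1 = Real.pi / 3 ∧ e1 = 1 ∧ e2 = 2))
    (ε : ℤ) (hε : ε = 1 ∨ ε = -1) (f : ℝ →+ ℝ) (hf2 : f (ℓ 2) = 0) (hf0 : f (ℓ 0) ≠ 0)
    (hf1 : f (ℓ 1) = -((-1) ^ e1 * f (ℓ 0)))
    (hne : ℓ 2 - ε * (ℓ 1 + (-1) ^ e1 * ℓ 0) ≠ 0) :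
    ∃ G : ℤ, (3 : ℤ) ∣ G ∧ (G : ℝ) * (ℓ 2 - ε * (ℓ 1 + (-1) ^ e1 * ℓ 0)) = 3 * s := by
  classical
  have hεC : (ε : ℂ) = 1 ∨ (ε : ℂ) = -1 := by
    rcases hε with rfl | rfl
    · left; norm_num
    · right; norm_num
  have hε0 : (ε : ℂ) ≠ 0 := by rcases hεC with h | h <;> rw [h] <;> norm_num
  have hεε : (ε : ℂ) * ε = 1 := by rcases hεC with h | h <;> rw [h] <;> norm_num
  have hεinv : (ε : ℂ)⁻¹ = ε := inv_eq_of_mul_eq_one_left hεε
  have he12 : e1 = 1 ∨ e1 = 2 := by rcases he with ⟨_, h1, _⟩ | ⟨_, h1, _⟩ <;> omega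
  have he3 : e1 + e2 = 3 := by rcases he with ⟨_, h1, h2⟩ | ⟨_, h1, h2⟩ <;> omega
  have hom3 : om ^ 3 = -1 := by
    have : om ^ 3 = om * om ^ 2 := by ring
    rw [this, om_sq]
    linear_combination om_sq
  have hz0 : dir T 0 ≠ 0 := by
    intro h1
    have h2 := norm_dir T h.ccwT 0
    rw [h1] at h2
    simp at h2
  -- the relation of the angles
  obtain ⟨d, hd, hd1, hdX⟩ : ∃ d : Fin 3 → ℤ, ∑ k, (d k : ℝ) * θ k = 0 ∧ (∃ k, d k = -1) ∧
      ∀ w : ℂ, w ≠ 0 → w ^ 6 = 1 →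
        ∏ k, (![(ε : ℂ), (ε : ℂ) * w ^ e1, w ^ e2] : Fin 3 → ℂ) k ^ d k = 1 := by
    rcases he with ⟨h1, h2, h3⟩ | ⟨h1, h2, h3⟩
    · refine ⟨![-1, -1, 2], ?_, ⟨0, rfl⟩, ?_⟩
      · rw [Fin.sum_univ_three]
        simp only [Matrix.cons_val_zero, Matrix.cons_val_one, Matrix.cons_val]
        push_cast
        linarith
      · intro w hw _
        rw [Fin.prod_univ_three, h2, h3]
        simp only [Matrix.cons_val_zero, Matrix.cons_val_one, Matrix.cons_val]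
        have hw2 : w ^ 2 ≠ 0 := pow_ne_zero _ hw
        have e : (ε : ℂ) ^ (-1 : ℤ) * ((ε : ℂ) * w ^ 2) ^ (-1 : ℤ) * (w ^ 1) ^ (2 : ℤ) =
            ((ε : ℂ) * ε)⁻¹ := by
          rw [zpow_neg_one, zpow_neg_one, mul_inv, mul_inv, pow_one]
          have : w ^ (2 : ℤ) = w ^ 2 := by norm_cast
          rw [this]
          field_simp
        rw [e, hεε, inv_one]
    · refine ⟨![2, 2, -1], ?_, ⟨2, rfl⟩, ?_⟩
      · rw [Fin.sum_univ_three]
        simp only [Matrix.cons_val_zero, Matrix.cons_val_one, Matrix.cons_val]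
        push_cast
        linarith
      · intro w hw _
        rw [Fin.prod_univ_three, h2, h3]
        simp only [Matrix.cons_val_zero, Matrix.cons_val_one, Matrix.cons_val]
        have hw2 : w ^ 2 ≠ 0 := pow_ne_zero _ hw
        have e : (ε : ℂ) ^ (2 : ℤ) * ((ε : ℂ) * w ^ 1) ^ (2 : ℤ) * (w ^ 2) ^ (-1 : ℤ) =
            ((ε : ℂ) * ε) * (ε * ε) := by
          rw [zpow_neg_one, pow_one]
          have a1 : (ε : ℂ) ^ (2 : ℤ) = ε * ε := by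
            have : (ε : ℂ) ^ (2 : ℤ) = (ε : ℂ) ^ 2 := by norm_cast
            rw [this]; ring
          have a2 : ((ε : ℂ) * w) ^ (2 : ℤ) = (ε * ε) * w ^ 2 := by
            have : ((ε : ℂ) * w) ^ (2 : ℤ) = ((ε : ℂ) * w) ^ 2 := by norm_cast
            rw [this]; ring
          rw [a1, a2]
          field_simp
        rw [e, hεε, one_mul]
  have hom6 : om ^ 6 = 1 := by
    have : om ^ 6 = (om ^ 3) ^ 2 := by ring
    rw [this, hom3]; norm_num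
  -- the complex character
  have hX : ∀ k, (![(ε : ℂ), (ε : ℂ) * om ^ e1, om ^ e2] : Fin 3 → ℂ) k ≠ 0 := by
    intro k
    fin_cases k
    · exact hε0
    · exact mul_ne_zero hε0 (pow_ne_zero _ om_ne)
    · exact pow_ne_zero _ om_ne
  obtain ⟨φ, f1, f2, f3⟩ := char_exists θ hsum hirr d hd hd1
    ![(ε : ℂ), (ε : ℂ) * om ^ e1, om ^ e2] hX
    (by
      simp only [Matrix.cons_val_zero, Matrix.cons_val_one, Matrix.cons_val]
      have : (ε : ℂ) * (ε * om ^ e1) * om ^ e2 = (ε * ε) * om ^ (e1 + e2) := by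
        rw [pow_add]; ring
      rw [this, he3, hεε, hom3, one_mul])
    (hdX om om_ne hom6) (dir T 0) hz0
  -- the real character
  have hX' : ∀ k, (![(ε : ℂ), (ε : ℂ) * (-1) ^ e1, (-1) ^ e2] : Fin 3 → ℂ) k ≠ 0 := by
    intro k
    fin_cases k
    · exact hε0
    · exact mul_ne_zero hε0 (pow_ne_zero _ (by norm_num))
    · exact pow_ne_zero _ (by norm_num)
  obtain ⟨ψ, g1, g2, g3⟩ := char_exists θ hsum hirr d hd hd1
    ![(ε : ℂ), (ε : ℂ) * (-1) ^ e1, (-1) ^ e2] hX'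
    (by
      simp only [Matrix.cons_val_zero, Matrix.cons_val_one, Matrix.cons_val]
      have : (ε : ℂ) * (ε * (-1) ^ e1) * (-1) ^ e2 = (ε * ε) * (-1) ^ (e1 + e2) := by
        rw [pow_add]; ring
      rw [this, he3, hεε]; norm_num)
    (hdX (-1) (by norm_num) (by norm_num)) (dir T 0) hz0
  obtain ⟨A, B, hAB, hF⟩ := total_f h.ccwt τ ℓ θ hlen hang φ _ hX f1 f3
  obtain ⟨A', B', hAB', hF'⟩ := total_f h.ccwt τ ℓ θ hlen hang ψ _ hX' g1 g3
  simp only [Matrix.cons_val_zero, Matrix.cons_val_one] at hF hF'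
  -- the big triangle
  have hsumT : φ (dir T 0) + φ (dir T 1) + φ (dir T 2) = 0 := by
    obtain ⟨a1, a2⟩ := side_sum h.ccwT hTa φ f1 om⁻¹ (corner_char θ φ _ hX f3 om⁻¹ (by
      rcases he with ⟨h1, h2, h3⟩ | ⟨h1, h2, h3⟩
      · left
        refine ⟨h1, ?_⟩
        simp only [Matrix.cons_val, h3, pow_one]
      · right
        refine ⟨h1, ?_⟩
        simp only [Matrix.cons_val_zero, Matrix.cons_val_one, h2, pow_one]
        rw [← mul_assoc, hεε, one_mul]))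
    rw [a2, a1, om_inv]
    linear_combination φ (dir T 1) * om_sq
  have hψT : ∀ k, ψ (dir T k) = ψ (dir T 1) := by
    obtain ⟨a1, a2⟩ := side_sum h.ccwT hTa ψ g1 (-1) (corner_char θ ψ _ hX' g3 (-1) (by
      rcases he with ⟨h1, h2, h3⟩ | ⟨h1, h2, h3⟩
      · left
        refine ⟨h1, ?_⟩
        simp only [Matrix.cons_val, h3, pow_one]
        norm_num
      · right
        refine ⟨h1, ?_⟩
        simp only [Matrix.cons_val_zero, Matrix.cons_val_one, h2, pow_one]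
        rw [← mul_assoc, hεε]
        norm_num))
    intro k
    have b1 : ψ (dir T 2) = ψ (dir T 1) := by rw [a1]; ring
    have b0 : ψ (dir T 0) = ψ (dir T 1) := by rw [a2, b1]; ring
    fin_cases k
    · exact b0
    · rfl
    · exact b1
  -- A = B = 0
  have hTf : ∀ f : ℝ →+ ℝ, ∑ k, (f (len T k) : ℂ) * φ (dir T k) = 0 := by
    intro f
    rw [Fin.sum_univ_three, hTs, hTs, hTs]
    linear_combination (f s : ℂ) * hsumT
  have q1 := (hF f).symm.trans ((odd_sum_f h f φ f1).trans (hTf f))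
  have q2 := (hF (AddMonoidHom.id ℝ)).symm.trans
    ((odd_sum_f h (AddMonoidHom.id ℝ) φ f1).trans (hTf _))
  simp only [AddMonoidHom.id_apply] at q2
  rw [hf2, hf1] at q1
  have hw := om_pow_sub e1 he12
  obtain ⟨w, hwdef⟩ : ∃ w, w = om ^ e1 := ⟨_, rfl⟩
  obtain ⟨w', hwdef'⟩ : ∃ w', w' = (om ^ e1)⁻¹ := ⟨_, rfl⟩
  rw [mul_inv, hεinv, ← hwdef', ← hwdef] at q1 q2
  rw [← hwdef', ← hwdef] at hw
  have hww : w' * w = 1 := by
    rw [hwdef, hwdef']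
    exact inv_mul_cancel₀ (pow_ne_zero _ om_ne)
  have hf0C : (f (ℓ 0) : ℂ) ≠ 0 := by exact_mod_cast hf0
  obtain ⟨κ, hκ⟩ : ∃ κ : ℂ, κ = (-1) ^ e1 := ⟨_, rfl⟩
  have hκR : (((-1 : ℝ) ^ e1 : ℝ) : ℂ) = κ := by rw [hκ]; push_cast; rfl
  push_cast at q1
  rw [← hκ] at q1
  have q1' : A * (w' - κ) + B * (w - κ) = 0 := by
    apply mul_left_cancel₀ (mul_ne_zero hε0 hf0C)
    linear_combination -q1
  have hneC : (ℓ 2 : ℂ) - ε * (ℓ 1 + κ * ℓ 0) ≠ 0 := by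
    rw [← hκR]
    intro h0
    apply hne
    exact_mod_cast h0
  have hA0 : A = 0 := by
    have : A * ((w' - w) * ((ℓ 2 : ℂ) - ε * (ℓ 1 + κ * ℓ 0))) = 0 := by
      linear_combination ((ℓ 2 : ℂ) - ε * w * ℓ 0 - ε * ℓ 1) * q1' - (w - κ) * q2
    exact (mul_eq_zero.mp this).resolve_right (mul_ne_zero hw hneC)
  have hB0 : B = 0 := by
    have : B * ((w' - w) * ((ℓ 2 : ℂ) - ε * (ℓ 1 + κ * ℓ 0))) = 0 := by
      linear_combination (w' - κ) * q2 - ((ℓ 2 : ℂ) - ε * w' * ℓ 0 - ε * ℓ 1) * q1'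
    exact (mul_eq_zero.mp this).resolve_right (mul_ne_zero hw hneC)
  -- integrality
  have hval : ∀ i, ∃ p q r : ℤ, φ (dir (t i) ((τ i).symm 2)) = (p : ℂ) + q * om ∧
      ψ (dir (t i) ((τ i).symm 2)) = (r : ℂ) ∧ (3 : ℤ) ∣ p - q - r := by
    intro i
    obtain ⟨m, x, hx⟩ := dir_coset h τ θ hang i ((τ i).symm 2) 0
    obtain ⟨p, q, r, h1, h2, -, h4⟩ := val_cong ε hε e1 e2 m x
    refine ⟨p, q, r, ?_, ?_, h4⟩
    · rw [hx, f2, h1]
    · rw [hx, g2, h2]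
  choose p q r hp hr hdiv using hval
  have hpq : ((∑ i, p i : ℤ) : ℂ) + ((∑ i, q i : ℤ) : ℂ) * om = 0 := by
    rw [hA0, hB0, add_zero] at hAB
    rw [hAB]
    push_cast
    rw [Finset.sum_mul, ← Finset.sum_add_distrib]
    exact Finset.sum_congr rfl fun i _ => (hp i).symm
  obtain ⟨hP, hQ⟩ := om_lin _ _ hpq
  have hR3 : (3 : ℤ) ∣ ∑ i, r i := by
    have h1 : (3 : ℤ) ∣ ∑ i, (p i - q i - r i) := Finset.dvd_sum fun i _ => hdiv i
    rw [Finset.sum_sub_distrib, Finset.sum_sub_distrib, hP, hQ] at h1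
    simpa using h1
  -- the real identity
  have q3 := (hF' (AddMonoidHom.id ℝ)).symm.trans (odd_sum_f h (AddMonoidHom.id ℝ) ψ g1)
  simp only [AddMonoidHom.id_apply] at q3
  have hκκ : κ * κ = 1 := by
    rw [hκ, ← pow_add, ← two_mul, pow_mul]
    norm_num
  have hκinv : κ⁻¹ = κ := inv_eq_of_mul_eq_one_left hκκ
  rw [mul_inv, hεinv, ← hκ, hκinv, Fin.sum_univ_three, hTs, hTs, hTs, hψT 0, hψT 2] at q3
  have hRsum : A' + B' = ((∑ i, r i : ℤ) : ℂ) := by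
    rw [hAB']
    push_cast
    exact Finset.sum_congr rfl fun i _ => hr i
  have hρ : ψ (dir T 1) = 1 ∨ ψ (dir T 1) = -1 := by
    rw [← hψT 0]
    have h1 := g2 0 0
    simp at h1
    left
    exact h1
  have q4 : (((∑ i, r i : ℤ) : ℝ) * (ℓ 2 - ε * (ℓ 1 + (-1) ^ e1 * ℓ 0)) : ℝ) = 3 * s ∨
      (((∑ i, r i : ℤ) : ℝ) * (ℓ 2 - ε * (ℓ 1 + (-1) ^ e1 * ℓ 0)) : ℝ) = -(3 * s) := by
    have h5 : ((∑ i, r i : ℤ) : ℂ) * ((ℓ 2 : ℂ) - ε * (ℓ 1 + κ * ℓ 0)) =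
        3 * s * ψ (dir T 1) := by
      rw [← hRsum]
      linear_combination q3
    rw [← hκR] at h5
    rcases hρ with h6 | h6
    · left
      rw [h6] at h5
      have : ((((∑ i, r i : ℤ) : ℝ) * (ℓ 2 - ε * (ℓ 1 + (-1) ^ e1 * ℓ 0)) : ℝ) : ℂ) =
          ((3 * s : ℝ) : ℂ) := by
        push_cast at h5 ⊢
        rw [h5]; ring
      exact_mod_cast this
    · right
      rw [h6] at h5
      have : ((((∑ i, r i : ℤ) : ℝ) * (ℓ 2 - ε * (ℓ 1 + (-1) ^ e1 * ℓ 0)) : ℝ) : ℂ) =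
          ((-(3 * s) : ℝ) : ℂ) := by
        push_cast at h5 ⊢
        rw [h5]; ring
      exact_mod_cast this
  rcases q4 with h6 | h6
  · exact ⟨∑ i, r i, hR3, h6⟩
  · refine ⟨-∑ i, r i, (dvd_neg).2 hR3, ?_⟩
    rw [Int.cast_neg, neg_mul, h6, neg_neg]

end Pool.Agent.Helper549.Tri2.Cubic
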