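import Mathlib
import Pool.Agent.Helper549.Tri.MainEq
import Pool.Agent.Helper549.Tri.PermX
import Pool.Agent.Helper549.Tri2.EqGen0
import Pool.Agent.Helper549.Tri2.Cubic3
import Pool.Agent.Helper549.Tri2.AlgJob
set_option autoImplicit false
noncomputable section
open scoped BigOperators

namespace Pool.Agent.Helper549.Tri2.EqGen
open Pool.Agent.Helper549.Tri Pool.Agent.Helper549.Tri2.EqGen0 Pool.Agent.Helper549.Tri2.Cubic

/-- the arithmetic condition on the number of tiles -/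
def Cond (N : ℕ) : Prop := ∃ m n : ℕ, 0 < m ∧ 0 < n ∧ m * n = 3 * N ∧ m ≤ N ∧ n ≤ N ∧
  m % 2 = N % 2 ∧ n % 2 = N % 2 ∧
  ((3 ∣ m ∧ 3 ∣ n) ∨ (n ≤ m ∧ ∃ t : ℕ, t ^ 2 = 9 * m ^ 2 + 30 * m * n + 9 * n ^ 2) ∨
    (3 * n ≤ m ∧ ∃ t : ℕ, t ^ 2 + 30 * m * n = 9 * m ^ 2 + 9 * n ^ 2))

theorem eq_gen {N : ℕ} (hN : 2 ≤ N) {T : Fin 3 → ℂ} {t : Fin N → Fin 3 → ℂ}
    (h : Dis N T t) (h01 : len T 0 = len T 1) (h12 : len T 1 = len T 2)
    (τ : Fin N → Equiv.Perm (Fin 3)) (ℓ θ : Fin 3 → ℝ) (hlen : ∀ i m, len (t i) m = ℓ (τ i m))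
    (hang : ∀ i m, ang (t i) m = θ (τ i m)) (hrat : ¬ ∀ k, ∃ q : ℚ, θ k = q * Real.pi) :
    Cond N := by
  have hD0 := DataDis.data_of_dis hN h τ ℓ θ hlen hang hrat
  obtain ⟨σ, P, hP, hc⟩ := ClassDis.class_of_dis (by omega) h τ θ hang hrat
  have hTa := ang_equilateral T h.ccwT h01 h12
  have hD := hD0.perm_types σ
  have hshape := eq_shape hD hTa P hP hc
  have hlen' : ∀ i m, len (t i) m = (fun k => ℓ (σ k)) (((τ i).trans σ.symm) m) := by
    intro i m
    show _ = ℓ (σ (σ.symm (τ i m)))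
    rw [Equiv.apply_symm_apply, hlen]
  have hang' : ∀ i m, ang (t i) m = (fun k => θ (σ k)) (((τ i).trans σ.symm) m) := by
    intro i m
    show _ = θ (σ (σ.symm (τ i m)))
    rw [Equiv.apply_symm_apply, hang]
  have hTs : ∀ k, len T k = len T 0 := by
    intro k
    fin_cases k
    · rfl
    · exact h01.symm
    · show len T 2 = len T 0
      rw [← h12, ← h01]
  obtain ⟨a, ha⟩ : ∃ a, a = ℓ (σ 0) := ⟨_, rfl⟩
  obtain ⟨b, hb⟩ : ∃ b, b = ℓ (σ 1) := ⟨_, rfl⟩
  obtain ⟨c, hc'⟩ : ∃ c, c = ℓ (σ 2) := ⟨_, rfl⟩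
  obtain ⟨s, hs⟩ : ∃ s, s = len T 0 := ⟨_, rfl⟩
  have ha0 : 0 < a := by rw [ha]; exact hD.lpos 0
  have hb0 : 0 < b := by rw [hb]; exact hD.lpos 1
  have hc0 : 0 < c := by rw [hc']; exact hD.lpos 2
  have hs0 : 0 < s := by rw [hs]; exact hD.Spos 0
  have hsum : θ (σ 0) + θ (σ 1) + θ (σ 2) = Real.pi := hD.tsum
  have hirr : ¬ ∀ k, ∃ q : ℚ, (fun k => θ (σ k)) k = q * Real.pi := hD.irr
  have mR : ∀ k : ℕ, (0:ℕ) < k → (0:ℝ) < k := fun k hk => by exact_mod_cast hk
  rcases hshape with hx | hx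
  · rw [hx] at hD
    obtain ⟨hθ, hcos, harea, m, n, hm, hn, hmn, ⟨hmN, hnN, hm2, hn2⟩, r1, r2⟩ := E7_mn hD

    rw [← ha, ← hb, ← hc'] at hcos r1 r2
    rw [← ha, ← hb] at harea
    rw [← hs] at harea r1 r2
    have hmR := mR m hm
    have hnR := mR n hn
    have hp1 : 0 < a - b + c := by nlinarith
    have hp2 : 0 < -a + b + c := by nlinarith
    have hrel : ((m : ℝ) + n) * (a - b) = (n - m) * c := by
      rw [r1] at r2; linear_combination r2
    obtain ⟨q0, hq0⟩ : ∃ q0 : ℚ, b = a - q0 * c := by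
      refine ⟨((n : ℚ) - m) / (m + n), ?_⟩
      push_cast
      have : (m : ℝ) + n ≠ 0 := by positivity
      field_simp
      linear_combination (-1 : ℝ) * hrel
    by_cases hra : ∃ q : ℚ, a = q * c
    · have hrb : ∃ q : ℚ, b = q * c := by
        obtain ⟨q, hq⟩ := hra
        refine ⟨q - q0, ?_⟩
        rw [hq0, hq]
        push_cast
        ring
      obtain ⟨t0, ht0⟩ := AlgJob.E_alg m n N hm hn a b c s ha0 hb0 hc0 hcos harea r1 r2 hmn hra hrb
      rcases le_total n m with hle | hle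
      · exact ⟨m, n, hm, hn, hmn, hmN, hnN, hm2, hn2, Or.inr (Or.inl ⟨hle, t0, ht0⟩)⟩
      · refine ⟨n, m, hn, hm, by rw [mul_comm]; exact hmn, hnN, hmN, hn2, hm2,
          Or.inr (Or.inl ⟨hle, t0, ?_⟩)⟩
        rw [ht0]; ring
    · obtain ⟨f, hfc, hfa, hfq⟩ := exists_f a c hra
      have hfb : f b = -((-1) ^ 1 * f a) := by
        rw [hq0, map_sub, hfq, hfc]; ring
      have key := fun (ε : ℤ) (hε : ε = 1 ∨ ε = -1) hne =>
        cubic_core h (fun i => (τ i).trans σ.symm) (fun k => ℓ (σ k)) (fun k => θ (σ k)) hlen'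
          hang' hsum hirr s (fun k => by rw [hTs k, hs]) hTa 1 2 (Or.inr ⟨hθ, rfl, rfl⟩) ε hε f
          (by show f (ℓ (σ 2)) = 0; rw [← hc']; exact hfc)
          (by show f (ℓ (σ 0)) ≠ 0; rw [← ha]; exact hfa)
          (by show f (ℓ (σ 1)) = -((-1) ^ 1 * f (ℓ (σ 0))); rw [← ha, ← hb]; exact hfb) hne
      simp only [← ha, ← hb, ← hc'] at key
      obtain ⟨G1, hG1, hG1'⟩ := key 1 (Or.inl rfl) (by push_cast; intro h0; apply hp1.ne'; linarith)
      obtain ⟨G2, hG2, hG2'⟩ := key (-1) (Or.inr rfl) (by push_cast; intro h0; apply hp2.ne'; linarith)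
      have hG1m : G1 = m := by
        have : (G1 : ℝ) = m := by
          apply mul_right_cancel₀ hp1.ne'
          rw [← r1, ← hG1']
          push_cast
          ring
        exact_mod_cast this
      have hG2n : G2 = n := by
        have : (G2 : ℝ) = n := by
          apply mul_right_cancel₀ hp2.ne'
          rw [← r2, ← hG2']
          push_cast
          ring
        exact_mod_cast this
      rw [hG1m] at hG1
      rw [hG2n] at hG2
      exact ⟨m, n, hm, hn, hmn, hmN, hnN, hm2, hn2,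
        Or.inl ⟨by exact_mod_cast hG1, by exact_mod_cast hG2⟩⟩
  · rw [hx] at hD
    obtain ⟨hθ, hcos, harea, m, n, hm, hn, hmn, ⟨hmN, hnN, hm2, hn2⟩, r1, r2⟩ := F_mn hD

    rw [← ha, ← hb, ← hc'] at hcos r1 r2
    rw [← ha, ← hb] at harea
    rw [← hs] at harea r1 r2
    have hmR := mR m hm
    have hnR := mR n hn
    have hab := mul_pos ha0 hb0
    have hp1 : 0 < a + b - c := by nlinarith
    have hp2 : 0 < a + b + c := by positivity
    have hrel : ((m : ℝ) - n) * (a + b) = (m + n) * c := by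
      rw [r1] at r2; linear_combination r2
    have hmn' : (m : ℝ) - n ≠ 0 := by
      intro h0
      rw [h0, zero_mul] at hrel
      have : 0 < ((m : ℝ) + n) * c := by positivity
      linarith
    obtain ⟨q0, hq0⟩ : ∃ q0 : ℚ, b = q0 * c - a := by
      refine ⟨((m : ℚ) + n) / (m - n), ?_⟩
      push_cast
      field_simp
      linear_combination hrel
    by_cases hra : ∃ q : ℚ, a = q * c
    · have hrb : ∃ q : ℚ, b = q * c := by
        obtain ⟨q, hq⟩ := hra
        refine ⟨q0 - q, ?_⟩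
        rw [hq0, hq]
        push_cast
        ring
      obtain ⟨h3, t0, ht0⟩ := AlgJob.F_alg m n N hm hn a b c s ha0 hb0 hc0 hcos harea r1 r2 hmn
        hra hrb
      exact ⟨m, n, hm, hn, hmn, hmN, hnN, hm2, hn2, Or.inr (Or.inr ⟨h3, t0, ht0⟩)⟩
    · obtain ⟨f, hfc, hfa, hfq⟩ := exists_f a c hra
      have hfb : f b = -((-1) ^ 2 * f a) := by
        rw [hq0, map_sub, hfq, hfc]; ring
      have key := fun (ε : ℤ) (hε : ε = 1 ∨ ε = -1) hne =>
        cubic_core h (fun i => (τ i).trans σ.symm) (fun k => ℓ (σ k)) (fun k => θ (σ k)) hlen'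
          hang' hsum hirr s (fun k => by rw [hTs k, hs]) hTa 2 1 (Or.inl ⟨hθ, rfl, rfl⟩) ε hε f
          (by show f (ℓ (σ 2)) = 0; rw [← hc']; exact hfc)
          (by show f (ℓ (σ 0)) ≠ 0; rw [← ha]; exact hfa)
          (by show f (ℓ (σ 1)) = -((-1) ^ 2 * f (ℓ (σ 0))); rw [← ha, ← hb]; exact hfb) hne
      simp only [← ha, ← hb, ← hc'] at key
      obtain ⟨G1, hG1, hG1'⟩ := key 1 (Or.inl rfl) (by push_cast; intro h0; apply hp1.ne'; linarith)
      obtain ⟨G2, hG2, hG2'⟩ := key (-1) (Or.inr rfl) (by push_cast; intro h0; apply hp2.ne'; linarith)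
      have hG1m : G1 = -m := by
        have : (G1 : ℝ) = -m := by
          apply mul_right_cancel₀ hp1.ne'
          rw [neg_mul, ← r1, ← hG1']
          push_cast
          ring
        exact_mod_cast this
      have hG2n : G2 = n := by
        have : (G2 : ℝ) = n := by
          apply mul_right_cancel₀ hp2.ne'
          rw [← r2, ← hG2']
          push_cast
          ring
        exact_mod_cast this
      rw [hG1m, dvd_neg] at hG1
      rw [hG2n] at hG2
      exact ⟨m, n, hm, hn, hmn, hmN, hnN, hm2, hn2,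
        Or.inl ⟨by exact_mod_cast hG1, by exact_mod_cast hG2⟩⟩

end Pool.Agent.Helper549.Tri2.EqGen
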