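import Mathlib
import Pool.Agent.Helper549.Tri.DataDef
import Pool.Agent.Helper549.Tri.PermX
import Pool.Agent.Helper549.Tri.ShapeFp
import Pool.Agent.Helper549.Tri.Classify
set_option autoImplicit false
noncomputable section
open scoped BigOperators

namespace Pool.Agent.Helper549.Tri2.EqTwo
open Pool.Agent.Helper549.Tri Pool.Agent.Helper549.Tri.ShapeFp Pool.Agent.Helper549.Tri.Classify

/-- TARGET: this corner pattern is impossible if the number of tiles is 2 modulo 4 -/
theorem shapeE7_two {N : ℕ} (hN : N % 4 = 2) {ℓ θ S A : Fin 3 → ℝ}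
    {β : Fin 3 → Fin 3 → ℕ} (h : Data N ℓ θ S A ![![1,1,0],![1,1,0],![1,1,0]] β) : False := by
  have hA0 : A 0 = θ 0 + θ 1 := by have := h.angles 0; simpa [Fin.sum_univ_three] using this
  have hA1 : A 1 = θ 0 + θ 1 := by have := h.angles 1; simpa [Fin.sum_univ_three] using this
  have hA2 : A 2 = θ 0 + θ 1 := by have := h.angles 2; simpa [Fin.sum_univ_three] using this
  have hAs := h.Asum
  have hts := h.tsum
  have hth : θ 0 + θ 1 = Real.pi / 3 := by linarith
  have hA0' : A 0 = Real.pi / 3 := by linarith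
  have hA1' : A 1 = Real.pi / 3 := by linarith
  have hA2' : A 2 = Real.pi / 3 := by linarith
  have hs3 : 0 < Real.sin (Real.pi / 3) := Real.sin_pos_of_pos_of_lt_pi (by positivity) (by
    have := Real.pi_pos; linarith)
  have hS01 : S 0 = S 1 := by
    have := h.sineT 0 1
    rw [hA0', hA1'] at this
    exact mul_right_cancel₀ hs3.ne' this
  have hS02 : S 0 = S 2 := by
    have := h.sineT 0 2
    rw [hA0', hA2'] at this
    exact mul_right_cancel₀ hs3.ne' this
  have hθ2 : Real.sin (θ 2) = Real.sin (θ 0 + θ 1) := by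
    have : θ 2 = Real.pi - (θ 0 + θ 1) := by linarith
    rw [this, Real.sin_pi_sub]
  have ha := h.lpos 0
  have hb := h.lpos 1
  have hc := h.lpos 2
  set a := ℓ 0 with ha_def
  set b := ℓ 1 with hb_def
  set c := ℓ 2 with hc_def
  set s := S 0 with hs_def
  have hspos : 0 < s := h.Spos 0
  have harea : s ^ 2 = N * a * b := by
    have h1 := h.area
    rw [hθ2, hth, hA2', ← hS01] at h1
    have h2 : ((N : ℝ) * a * b) * Real.sin (Real.pi / 3) = s ^ 2 * Real.sin (Real.pi / 3) := by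
      linear_combination h1
    exact (mul_right_cancel₀ hs3.ne' h2).symm
  -- law of cosines
  have hsθ2 : 0 < Real.sin (θ 2) := by rw [hθ2, hth]; exact hs3
  have hsin0 : c * Real.sin (θ 0) = a * Real.sin (θ 2) := (h.sinet 2 0)
  have hsin1 : c * Real.sin (θ 1) = b * Real.sin (θ 2) := (h.sinet 2 1)
  have hcos : c ^ 2 = a ^ 2 + a * b + b ^ 2 := by
    have hid : Real.sin (θ 0 + θ 1) ^ 2 = Real.sin (θ 0) ^ 2 + Real.sin (θ 1) ^ 2 +
        2 * Real.sin (θ 0) * Real.sin (θ 1) * Real.cos (θ 0 + θ 1) := by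
      rw [Real.sin_add, Real.cos_add]
      have p0 := Real.sin_sq_add_cos_sq (θ 0)
      have p1 := Real.sin_sq_add_cos_sq (θ 1)
      have q0 : Real.cos (θ 0) ^ 2 = 1 - Real.sin (θ 0) ^ 2 := by linarith
      have q1 : Real.cos (θ 1) ^ 2 = 1 - Real.sin (θ 1) ^ 2 := by linarith
      linear_combination (Real.sin (θ 0)) ^ 2 * q1 + (Real.sin (θ 1)) ^ 2 * q0
    rw [← hθ2, hth, Real.cos_pi_div_three] at hid
    have h1 : (c ^ 2) * Real.sin (θ 2) ^ 2 = (a ^ 2 + a * b + b ^ 2) * Real.sin (θ 2) ^ 2 := by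
      have e1 : c ^ 2 * Real.sin (θ 2) ^ 2 = (c * Real.sin (θ 0)) ^ 2 + (c * Real.sin (θ 1)) ^ 2 +
          (c * Real.sin (θ 0)) * (c * Real.sin (θ 1)) := by
        rw [hid]; ring
      rw [e1, hsin0, hsin1]; ring
    exact mul_right_cancel₀ (by positivity) h1
  have hc1 : a - b < c := by nlinarith
  have hc2 : b - a < c := by nlinarith
  -- characters
  obtain ⟨M1, hM1, hp1, hr1, hb1⟩ := h.char ![1, -1, 1] (by decide) (by decide) ⟨2, by decide⟩ (by decide)
  obtain ⟨M2, hM2, hp2, hr2, hb2⟩ := h.char ![-1, 1, 1] (by decide) (by decide) ⟨2, by decide⟩ (by decide)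
  simp [Fin.sum_univ_three, Fin.prod_univ_three] at hr1 hr2
  rw [← hS01, ← hS02] at hr1 hr2
  have r1 : 3 * s = (-M1 : ℝ) * (a - b + c) := by
    linear_combination (-1 : ℝ) * hr1
  have r2 : 3 * s = (-M2 : ℝ) * (-a + b + c) := by
    linear_combination (-1 : ℝ) * hr2
  have p1 : (0 : ℝ) < -M1 := by
    by_contra hn
    push Not at hn
    nlinarith [mul_nonneg (neg_nonneg.mpr hn) (by linarith : (0:ℝ) ≤ a - b + c)]
  have p2 : (0 : ℝ) < -M2 := by
    by_contra hn
    push Not at hn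
    nlinarith [mul_nonneg (neg_nonneg.mpr hn) (by linarith : (0:ℝ) ≤ -a + b + c)]
  have p1' : 0 < -M1 := by exact_mod_cast p1
  have p2' : 0 < -M2 := by exact_mod_cast p2
  obtain ⟨m, hm⟩ : ∃ m : ℕ, (m : ℤ) = -M1 := ⟨(-M1).toNat, Int.toNat_of_nonneg p1'.le⟩
  obtain ⟨n, hn⟩ : ∃ n : ℕ, (n : ℤ) = -M2 := ⟨(-M2).toNat, Int.toNat_of_nonneg p2'.le⟩
  have hmR : (m : ℝ) = -M1 := by exact_mod_cast hm
  have hnR : (n : ℝ) = -M2 := by exact_mod_cast hn
  rw [← hmR] at r1
  rw [← hnR] at r2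
  have hmN : m ≤ N := by
    have := neg_le_abs M1
    have h2 : (m : ℤ) ≤ N := by rw [hm]; exact this.trans hM1
    exact_mod_cast h2
  have hnN : n ≤ N := by
    have := neg_le_abs M2
    have h2 : (n : ℤ) ≤ N := by rw [hn]; exact this.trans hM2
    exact_mod_cast h2
  have hmpos : 0 < m := by
    have : (0 : ℤ) < m := by rw [hm]; exact p1'
    exact_mod_cast this
  have hnpos : 0 < n := by
    have : (0 : ℤ) < n := by rw [hn]; exact p2'
    exact_mod_cast this
  have hmn : m * n = 3 * N := by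
    have h1 : ((m : ℝ) * n) * (3 * (a * b)) = (3 * N) * (3 * (a * b)) := by
      have e1 : 9 * s ^ 2 = (m : ℝ) * n * ((a - b + c) * (-a + b + c)) := by
        have : 9 * s ^ 2 = (3 * s) * (3 * s) := by ring
        rw [this]
        nth_rewrite 1 [r1]
        rw [r2]; ring
      have e2 : (a - b + c) * (-a + b + c) = 3 * (a * b) := by
        linear_combination hcos
      rw [e2, harea] at e1
      linear_combination (-1 : ℝ) * e1
    have h2 := mul_right_cancel₀ (by positivity) h1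
    exact_mod_cast h2
  have hm2 : m % 2 = 0 := by omega
  have hn2 : n % 2 = 0 := by omega
  obtain ⟨m', hm'⟩ : ∃ m', m = 2 * m' := ⟨m / 2, by omega⟩
  obtain ⟨n', hn'⟩ : ∃ n', n = 2 * n' := ⟨n / 2, by omega⟩
  rw [hm', hn'] at hmn
  have h4 : 4 * (m' * n') = 3 * N := by rw [← hmn]; ring
  omega

/-- TARGET: this corner pattern is impossible if the number of tiles is 2 modulo 4 -/
theorem shapeF_two {N : ℕ} (hN : N % 4 = 2) {ℓ θ S A : Fin 3 → ℝ}
    {β : Fin 3 → Fin 3 → ℕ} (h : Data N ℓ θ S A ![![0,0,1],![0,0,1],![0,0,1]] β) : False := by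
  have ha := h.lpos 0
  have hb := h.lpos 1
  have hc := h.lpos 2
  have hA0 : A 0 = θ 2 := by
    have := h.angles 0
    simpa [Fin.sum_univ_three] using this
  have hA1 : A 1 = θ 2 := by
    have := h.angles 1
    simpa [Fin.sum_univ_three] using this
  have hA2 : A 2 = θ 2 := by
    have := h.angles 2
    simpa [Fin.sum_univ_three] using this
  have hθ : θ 2 = Real.pi / 3 := by
    have := h.Asum
    rw [hA0, hA1, hA2] at this
    linarith
  have hsin : 0 < Real.sin (θ 2) := by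
    apply Real.sin_pos_of_pos_of_lt_pi (h.tpos 2)
    rw [hθ]
    linarith [Real.pi_pos]
  have hS1 : S 1 = S 0 := by
    have := h.sineT 1 0
    rw [hA0, hA1] at this
    exact mul_right_cancel₀ hsin.ne' this
  have hS2 : S 2 = S 0 := by
    have := h.sineT 2 0
    rw [hA0, hA2] at this
    exact mul_right_cancel₀ hsin.ne' this
  have hs := h.Spos 0
  have hcos : ℓ 2 ^ 2 = ℓ 0 ^ 2 + ℓ 1 ^ 2 - ℓ 0 * ℓ 1 := by
    have := law_cos hsin h.tsum (h.sinet 0 2) (h.sinet 1 2)
    rw [this, hθ, Real.cos_pi_div_three]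
    ring
  have harea : S 0 ^ 2 = N * (ℓ 0 * ℓ 1) := by
    have := h.area
    rw [hA2, hS1] at this
    have h2 : Real.sin (θ 2) * (N * (ℓ 0 * ℓ 1)) = Real.sin (θ 2) * (S 0 ^ 2) := by
      linear_combination this
    exact (mul_left_cancel₀ hsin.ne' h2).symm
  obtain ⟨M1, hM1, hp1, hM1e, hM1b⟩ := h.char ![1, 1, -1] (by intro k; fin_cases k <;> simp) (by simp)
    ⟨0, by simp [Fin.sum_univ_three]⟩ (by simp [Fin.sum_univ_three, Fin.prod_univ_three])
  obtain ⟨M2, hM2, hp2, hM2e, -⟩ := h.char ![-1, -1, -1] (by intro k; fin_cases k <;> simp) (by simp)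
    ⟨0, by simp [Fin.sum_univ_three]⟩ (by simp [Fin.sum_univ_three, Fin.prod_univ_three])
  simp [Fin.sum_univ_three, Fin.prod_univ_three] at hM1e hM2e
  rw [hS1, hS2] at hM1e hM2e
  have hlt : ℓ 2 < ℓ 0 + ℓ 1 := by
    apply lt_of_pow_lt_pow_left₀ 2 (by positivity)
    rw [hcos]
    nlinarith [mul_pos ha hb]
  have hM1neg : (M1 : ℝ) < 0 := by
    by_contra hcon
    push Not at hcon
    have : 0 ≤ (M1 : ℝ) * (ℓ 0 + ℓ 1 + -ℓ 2) := mul_nonneg hcon (by linarith)
    linarith
  have hM2pos : (0 : ℝ) < M2 := by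
    by_contra hcon
    push Not at hcon
    have : 0 ≤ (M2 : ℝ) * (-ℓ 0 + -ℓ 1 + -ℓ 2) := mul_nonneg_of_nonpos_of_nonpos hcon (by linarith)
    linarith
  have hM1neg' : M1 < 0 := by exact_mod_cast hM1neg
  have hM2pos' : 0 < M2 := by exact_mod_cast hM2pos
  obtain ⟨m, hm⟩ : ∃ m : ℕ, M1 = -(m : ℤ) := ⟨(-M1).toNat, by omega⟩
  obtain ⟨n, hn⟩ : ∃ n : ℕ, M2 = (n : ℤ) := ⟨M2.toNat, by omega⟩
  have hmN : m ≤ N := by
    rw [hm, abs_neg, abs_of_nonneg (by positivity)] at hM1
    exact_mod_cast hM1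
  have hnN : n ≤ N := by
    rw [hn, abs_of_nonneg (by positivity)] at hM2
    exact_mod_cast hM2
  have hm0 : 0 < m := by omega
  have hn0 : 0 < n := by omega
  have e1 : 3 * S 0 = m * (ℓ 0 + ℓ 1 - ℓ 2) := by
    rw [hm] at hM1e
    push_cast at hM1e
    linarith
  have e2 : 3 * S 0 = n * (ℓ 0 + ℓ 1 + ℓ 2) := by
    rw [hn] at hM2e
    push_cast at hM2e
    linarith
  have hmn : m * n = 3 * N := by
    have hab : (3 * (ℓ 0 * ℓ 1)) ≠ 0 := by positivity
    have : (3 * (ℓ 0 * ℓ 1)) * ((m : ℝ) * n) = (3 * (ℓ 0 * ℓ 1)) * (3 * N) := by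
      calc (3 * (ℓ 0 * ℓ 1)) * ((m : ℝ) * n)
          = ((ℓ 0 + ℓ 1) ^ 2 - ℓ 2 ^ 2) * (m * n) := by rw [hcos]; ring
        _ = (m * (ℓ 0 + ℓ 1 - ℓ 2)) * (n * (ℓ 0 + ℓ 1 + ℓ 2)) := by ring
        _ = (3 * S 0) * (3 * S 0) := by rw [← e1, ← e2]
        _ = 9 * S 0 ^ 2 := by ring
        _ = _ := by rw [harea]; ring
    have := mul_left_cancel₀ hab this
    exact_mod_cast this
  have hm2 : m % 2 = 0 := by omega
  have hn2 : n % 2 = 0 := by omega
  obtain ⟨m', hm'⟩ : ∃ m', m = 2 * m' := ⟨m / 2, by omega⟩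
  obtain ⟨n', hn'⟩ : ∃ n', n = 2 * n' := ⟨n / 2, by omega⟩
  rw [hm', hn'] at hmn
  have h4 : 4 * (m' * n') = 3 * N := by rw [← hmn]; ring
  omega

theorem eqf_aux_two {N : ℕ} (hN : N % 4 = 2) {ℓ θ S A : Fin 3 → ℝ}
    {x β : Fin 3 → Fin 3 → ℕ}
    (h : Data N ℓ θ S A x β) (hA : ∀ j, A j = Real.pi / 3) (P : Fin 3 → ℕ)
    (hP : ∀ k, ∑ j, x j k = P k)
    (hc : P = ![1, 1, 1] ∨ P = ![2, 0, 1] ∨ P = ![3, 0, 1] ∨ P = ![2, 2, 0] ∨ P = ![3, 2, 0] ∨
        P = ![3, 3, 0] ∨ P = ![0, 0, 3]) : False := by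
  have hP' : ∀ k, x 0 k + x 1 k + x 2 k = P k := by
    intro k
    rw [← hP k, Fin.sum_univ_three]
  have hP0 := hP' 0
  have hP1 := hP' 1
  have hP2 := hP' 2
  have hang : ∀ j, (x j 0 : ℝ) * θ 0 + (x j 1 : ℝ) * θ 1 + (x j 2 : ℝ) * θ 2 = Real.pi / 3 := by
    intro j
    rw [← hA j, h.angles j, Fin.sum_univ_three]
  have hrow : ∀ j, 1 ≤ x j 0 + x j 1 + x j 2 := by
    intro j
    obtain ⟨k, hk⟩ := h.kpos j
    fin_cases k
    · simp only [Fin.zero_eta] at hk; omega
    · simp only [Fin.mk_one] at hk; omega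
    · simp only [Fin.reduceFinMk] at hk; omega
  have hr0 := hrow 0
  have hr1 := hrow 1
  have hr2 := hrow 2
  have hsum := h.tsum
  have hw : ∀ j, ∑ k, (((3 * (x j k : ℤ) - 1 : ℤ)) : ℝ) * θ k = 0 := by
    intro j
    rw [Fin.sum_univ_three]
    push_cast
    linear_combination 3 * hang j - hsum
  have hd : ∑ k, ((((P k : ℤ) - 1 : ℤ)) : ℝ) * θ k = 0 := by
    rw [Fin.sum_univ_three]
    have e0 : (P 0 : ℝ) = x 0 0 + x 1 0 + x 2 0 := by rw [← hP0]; push_cast; ring
    have e1 : (P 1 : ℝ) = x 0 1 + x 1 1 + x 2 1 := by rw [← hP1]; push_cast; ring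
    have e2 : (P 2 : ℝ) = x 0 2 + x 1 2 + x 2 2 := by rw [← hP2]; push_cast; ring
    push_cast
    rw [e0, e1, e2]
    linear_combination hang 0 + hang 1 + hang 2 - hsum
  have key : ∀ (k0 : Fin 3), (P k0 : ℤ) - 1 = -1 → ∀ j k,
      3 * (x j k : ℤ) - 1 = -(3 * (x j k0 : ℤ) - 1) * ((P k : ℤ) - 1) := fun k0 h0 j k =>
    rel_prop θ hsum h.irr (fun k => (P k : ℤ) - 1) (fun k => 3 * (x j k : ℤ) - 1) hd (hw j) k0 h0 k
  rcases hc with hc | hc | hc | hc | hc | hc | hc
  · have p0 : P 0 = 1 := by rw [hc]; rfl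
    have p1 : P 1 = 1 := by rw [hc]; rfl
    have p2 : P 2 = 1 := by rw [hc]; rfl
    have hone : ∀ k, P k = 1 := by rw [hc]; decide
    apply h.irr
    intro k
    refine ⟨1 / 3, ?_⟩
    have hk := hP' k
    rw [hone k] at hk
    have hj : ∃ j, x j k = 1 := by
      have : x 0 k = 1 ∨ x 1 k = 1 ∨ x 2 k = 1 := by omega
      rcases this with h' | h' | h'
      · exact ⟨0, h'⟩
      · exact ⟨1, h'⟩
      · exact ⟨2, h'⟩
    obtain ⟨j, hj⟩ := hj
    have hrj : x j 0 + x j 1 + x j 2 = 1 := by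
      fin_cases j
      · simp only [Fin.zero_eta]; omega
      · simp only [Fin.mk_one]; omega
      · simp only [Fin.reduceFinMk]; omega
    have ha := hang j
    have hk3 : k = 0 ∨ k = 1 ∨ k = 2 := by
      fin_cases k
      · exact Or.inl rfl
      · exact Or.inr (Or.inl rfl)
      · exact Or.inr (Or.inr rfl)
    rcases hk3 with rfl | rfl | rfl
    · have e1 : x j 1 = 0 := by omega
      have e2 : x j 2 = 0 := by omega
      rw [hj, e1, e2] at ha
      push_cast at ha ⊢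
      linarith
    · have e1 : x j 0 = 0 := by omega
      have e2 : x j 2 = 0 := by omega
      rw [hj, e1, e2] at ha
      push_cast at ha ⊢
      linarith
    · have e1 : x j 0 = 0 := by omega
      have e2 : x j 1 = 0 := by omega
      rw [hj, e1, e2] at ha
      push_cast at ha ⊢
      linarith
  · have p1 : P 1 = 0 := by rw [hc]; rfl
    have p2 : P 2 = 1 := by rw [hc]; rfl
    have := key 1 (by rw [p1]; rfl) 0 2
    rw [p2] at this
    omega
  · have p1 : P 1 = 0 := by rw [hc]; rfl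
    have p2 : P 2 = 1 := by rw [hc]; rfl
    have := key 1 (by rw [p1]; rfl) 0 2
    rw [p2] at this
    omega
  · have p2 : P 2 = 0 := by rw [hc]; rfl
    have p0 : P 0 = 2 := by rw [hc]; rfl
    have := key 2 (by rw [p2]; rfl) 0 0
    rw [p0] at this
    push_cast at this
    omega
  · have p2 : P 2 = 0 := by rw [hc]; rfl
    have p1 : P 1 = 2 := by rw [hc]; rfl
    have := key 2 (by rw [p2]; rfl) 0 1
    rw [p1] at this
    push_cast at this
    omega
  · have p2 : P 2 = 0 := by rw [hc]; rfl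
    have p0 : P 0 = 3 := by rw [hc]; rfl
    have p1 : P 1 = 3 := by rw [hc]; rfl
    have hx2 : ∀ j, x j 2 = 0 := by
      intro j
      fin_cases j
      · simp only [Fin.zero_eta]; omega
      · simp only [Fin.mk_one]; omega
      · simp only [Fin.reduceFinMk]; omega
    have hx0 : ∀ j, x j 0 = 1 := by
      intro j
      have := key 2 (by rw [p2]; rfl) j 0
      rw [p0, hx2 j] at this
      push_cast at this
      omega
    have hx1 : ∀ j, x j 1 = 1 := by
      intro j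
      have := key 2 (by rw [p2]; rfl) j 1
      rw [p1, hx2 j] at this
      push_cast at this
      omega
    have hx : x = ![![1,1,0],![1,1,0],![1,1,0]] := by
      funext j k
      fin_cases j <;> fin_cases k
      · exact hx0 0
      · exact hx1 0
      · exact hx2 0
      · exact hx0 1
      · exact hx1 1
      · exact hx2 1
      · exact hx0 2
      · exact hx1 2
      · exact hx2 2
    rw [hx] at h
    exact shapeE7_two hN h
  · have p2 : P 2 = 3 := by rw [hc]; rfl
    have p0 : P 0 = 0 := by rw [hc]; rfl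
    have p1 : P 1 = 0 := by rw [hc]; rfl
    have hx0 : ∀ j, x j 0 = 0 := by
      intro j
      fin_cases j
      · simp only [Fin.zero_eta]; omega
      · simp only [Fin.mk_one]; omega
      · simp only [Fin.reduceFinMk]; omega
    have hx1 : ∀ j, x j 1 = 0 := by
      intro j
      fin_cases j
      · simp only [Fin.zero_eta]; omega
      · simp only [Fin.mk_one]; omega
      · simp only [Fin.reduceFinMk]; omega
    have hx2 : ∀ j, x j 2 = 1 := by
      intro j
      have := key 0 (by rw [p0]; rfl) j 2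
      rw [p2, hx0 j] at this
      push_cast at this
      omega
    have hx : x = ![![0,0,1],![0,0,1],![0,0,1]] := by
      funext j k
      fin_cases j <;> fin_cases k
      · exact hx0 0
      · exact hx1 0
      · exact hx2 0
      · exact hx0 1
      · exact hx1 1
      · exact hx2 1
      · exact hx0 2
      · exact hx1 2
      · exact hx2 2
    rw [hx] at h
    exact shapeF_two hN h

/-- TARGET: equilateral big triangle -/
theorem equilateral_final_two {N : ℕ} (hN : N % 4 = 2) {ℓ θ S A : Fin 3 → ℝ}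
    {κ β : Fin 3 → Fin 3 → ℕ}
    (h : Data N ℓ θ S A κ β) (hA : ∀ j, A j = Real.pi / 3) (σ : Equiv.Perm (Fin 3)) (P : Fin 3 → ℕ)
    (hP : ∀ k, ∑ j, κ j (σ k) = P k)
    (hc : P = ![1, 1, 1] ∨ P = ![2, 0, 1] ∨ P = ![3, 0, 1] ∨ P = ![2, 2, 0] ∨ P = ![3, 2, 0] ∨
        P = ![3, 3, 0] ∨ P = ![0, 0, 3]) : False :=
  eqf_aux_two hN (h.perm_types σ) hA P hP hc

end Pool.Agent.Helper549.Tri2.EqTwo
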