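import Mathlib
import Pool.Agent.Helper549.Tri.Sparse
import Pool.Agent.Helper549.Tri.DvdEq
import Pool.Agent.Helper549.Tri.RatMain
set_option autoImplicit false
noncomputable section
open Polynomial

namespace Pool.Agent.Helper549.Tri2.RatMain3
open Pool.Agent.Helper549.Tri.Sparse Pool.Agent.Helper549.Tri.DvdEq Pool.Agent.Helper549.Tri.RatMain

theorem lift_dvd (l : ℕ) [hl : Fact l.Prime] (n : ℕ) (hn : 0 < n) (hcop : ¬ l ∣ n)
    (g : ℤ[X])
    (hv : ∀ ξ : AlgebraicClosure (ZMod l), IsPrimitiveRoot ξ n → aeval ξ g = 0) :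
    ∃ h : ℤ[X], ∀ ξ : ℂ, IsPrimitiveRoot ξ n → aeval ξ g = (l : ℂ) * aeval ξ h := by
  classical
  have hn0 : NeZero n := ⟨hn.ne'⟩
  let K := AlgebraicClosure (ZMod l)
  have hch : CharP K l := charP_of_injective_algebraMap (algebraMap (ZMod l) K).injective l
  have hnK : ((n : ℕ) : K) ≠ 0 := by
    intro h
    rw [CharP.cast_eq_zero_iff K l] at h
    exact hcop h
  have hneK : NeZero ((n : ℕ) : K) := ⟨hnK⟩
  obtain ⟨ζK, hζK⟩ := HasEnoughRootsOfUnity.exists_primitiveRoot K n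
  have hΦ : (cyclotomic n ℤ).Monic := cyclotomic.monic n ℤ
  have hdvd : (cyclotomic n ℤ).map (Int.castRingHom K) ∣ g.map (Int.castRingHom K) := by
    rw [map_cyclotomic_int, cyclotomic_eq_prod_X_sub_primitiveRoots hζK]
    apply Finset.prod_dvd_of_coprime
    · intro a _ b _ hab
      exact pairwise_coprime_X_sub_C Function.injective_id hab
    · intro a ha
      rw [dvd_iff_isRoot, IsRoot, eval_map]
      exact hv a ((mem_primitiveRoots hn).mp ha)
  have hr : (g %ₘ cyclotomic n ℤ).map (Int.castRingHom K) = 0 := by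
    rw [map_modByMonic _ hΦ, (modByMonic_eq_zero_iff_dvd (hΦ.map _)).mpr hdvd]
  have hC : C (l : ℤ) ∣ g %ₘ cyclotomic n ℤ := by
    rw [C_dvd_iff_dvd_coeff]
    intro i
    have h1 : ((g %ₘ cyclotomic n ℤ).map (Int.castRingHom K)).coeff i = 0 := by rw [hr]; simp
    rw [coeff_map] at h1
    exact (CharP.intCast_eq_zero_iff K l _).mp h1
  obtain ⟨h, hh⟩ := hC
  have hval : ∀ ξ : ℂ, IsPrimitiveRoot ξ n → aeval ξ g = (l : ℂ) * aeval ξ h := by
    intro ξ hξ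
    have h0 : aeval ξ (cyclotomic n ℤ) = 0 := by
      have := hξ.isRoot_cyclotomic hn
      rw [IsRoot, ← map_cyclotomic_int, eval_map] at this
      exact this
    have h1 := congrArg (aeval ξ) (modByMonic_add_div g (cyclotomic n ℤ))
    rw [map_add, map_mul, h0, zero_mul, add_zero, hh, map_mul, aeval_C] at h1
    rw [← h1]
    simp
  exact ⟨h, hval⟩


/-- normal form of an element of the cyclotomic ring: sum of `ζ^κ g_κ(z)` written with powers of `ω` -/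
def NF (q n1 b : ℕ) (K : Finset ℕ) (g : ℕ → ℤ[X]) : ℤ[X] :=
  ∑ κ ∈ K, X ^ ((1 + (q * n1 - 1) * (q * b)) * κ) * (g κ).comp (X ^ (q * b))

theorem nf_step (l : ℕ) [hl : Fact l.Prime] (h6 : 6 ≤ l) (m n1 : ℕ) (hn1 : 0 < n1)
    (hcop : ¬ l ∣ n1) (b : ℕ) (hb2 : l ^ (m + 1) * b ≡ 1 [MOD n1]) (K : Finset ℕ)
    (hK : ∀ κ ∈ K, κ < l ^ (m + 1)) (hcard : K.card ≤ 6) (g : ℕ → ℤ[X])
    (hd : ∀ ξ : AlgebraicClosure (ZMod l), IsPrimitiveRoot ξ n1 →
      (X - C ξ) ^ (6 * l ^ m) ∣ (NF (l ^ (m + 1)) n1 b K g).map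
        (algebraMap ℤ (AlgebraicClosure (ZMod l))))
    (ω : ℂ) (hω : IsPrimitiveRoot ω (l ^ (m + 1) * n1)) :
    ∃ h : ℕ → ℤ[X], aeval ω (NF (l ^ (m + 1)) n1 b K g) =
      (l : ℂ) * aeval ω (NF (l ^ (m + 1)) n1 b K h) := by
  classical
  have hlpos : 0 < l := hl.out.pos
  have hqpos : 0 < l ^ (m + 1) := pow_pos hlpos _
  haveI : CharP (AlgebraicClosure (ZMod l)) l := charP_of_injective_algebraMap
    (algebraMap (ZMod l) (AlgebraicClosure (ZMod l))).injective l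
  set φ := algebraMap ℤ (AlgebraicClosure (ZMod l)) with hφ
  have hgv : ∀ κ ∈ K, ∀ ξ : AlgebraicClosure (ZMod l), IsPrimitiveRoot ξ n1 →
      aeval ξ (g κ) = 0 := by
    intro κ0 hκ0 ξ hξ
    have hξ0 : ξ ≠ 0 := hξ.ne_zero hn1.ne'
    have hξf : ξ ^ (l ^ (m + 1) * b) = ξ := by
      have := pow_eq_pow_of_modEq hb2 hξ.pow_eq_one
      rwa [pow_one] at this
    have hξe : ξ ^ (1 + (l ^ (m + 1) * n1 - 1) * (l ^ (m + 1) * b)) = 1 := by
      rw [pow_add, mul_comm (l ^ (m + 1) * n1 - 1), pow_mul, hξf, ← pow_add,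
        Nat.add_sub_cancel' (Nat.mul_pos hqpos hn1), mul_comm, pow_mul, hξ.pow_eq_one, one_pow]
    set f0 : (AlgebraicClosure (ZMod l))[X] :=
      ∑ κ ∈ K, C (eval ξ ((g κ).map φ)) * X ^ κ with hf0
    have hXq : ((X : (AlgebraicClosure (ZMod l))[X]) - 1) ^ (l ^ (m + 1)) =
        X ^ (l ^ (m + 1)) - 1 := by
      rw [sub_pow_char_pow, one_pow]
    have hdiv : ∀ r : ℕ, (X : (AlgebraicClosure (ZMod l))[X]) ^ (l ^ (m + 1)) - 1 ∣
        X ^ (l ^ (m + 1) * r) - 1 := by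
      intro r
      rw [pow_mul]
      simpa using sub_dvd_pow_sub_pow
        ((X : (AlgebraicClosure (ZMod l))[X]) ^ (l ^ (m + 1))) 1 r
    have hmapc : ((NF (l ^ (m + 1)) n1 b K g).map φ).comp (C ξ * X) =
        ∑ κ ∈ K, X ^ ((1 + (l ^ (m + 1) * n1 - 1) * (l ^ (m + 1) * b)) * κ) *
          ((g κ).map φ).comp (C ξ * X ^ (l ^ (m + 1) * b)) := by
      rw [NF, Polynomial.map_sum, Polynomial.sum_comp]
      refine Finset.sum_congr rfl fun κ _ => ?_
      rw [Polynomial.map_mul, Polynomial.map_pow, map_X, Polynomial.map_comp, Polynomial.map_pow,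
        map_X, mul_comp, pow_comp, X_comp, comp_assoc, pow_comp, X_comp, mul_pow, mul_pow,
        ← C_pow, ← C_pow, hξf, pow_mul ξ, hξe, one_pow, C_1, one_mul]
    have h1 : (X - 1 : (AlgebraicClosure (ZMod l))[X]) ^ (6 * l ^ m) ∣
        ((NF (l ^ (m + 1)) n1 b K g).map φ).comp (C ξ * X) := by
      obtain ⟨r, hr⟩ := hd ξ hξ
      rw [hr, mul_comp, pow_comp, sub_comp, X_comp, C_comp]
      have : (C ξ * X - C ξ : (AlgebraicClosure (ZMod l))[X]) = C ξ * (X - 1) := by ring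
      rw [this, mul_pow]
      exact ⟨C ξ ^ (6 * l ^ m) * r.comp (C ξ * X), by ring⟩
    have h2 : (X - 1 : (AlgebraicClosure (ZMod l))[X]) ^ (6 * l ^ m) ∣
        ((NF (l ^ (m + 1)) n1 b K g).map φ).comp (C ξ * X) - f0 := by
      rw [hmapc, hf0, ← Finset.sum_sub_distrib]
      refine Finset.dvd_sum fun κ _ => ?_
      have h3 : (X - 1 : (AlgebraicClosure (ZMod l))[X]) ^ (6 * l ^ m) ∣
          X ^ (l ^ (m + 1)) - 1 := by
        rw [← hXq]
        apply pow_dvd_pow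
        rw [pow_succ, mul_comm]
        exact Nat.mul_le_mul_left _ h6
      refine h3.trans ?_
      have e1 : (X : (AlgebraicClosure (ZMod l))[X]) ^ (l ^ (m + 1)) - 1 ∣
          X ^ ((1 + (l ^ (m + 1) * n1 - 1) * (l ^ (m + 1) * b)) * κ) - X ^ κ := by
        have : (1 + (l ^ (m + 1) * n1 - 1) * (l ^ (m + 1) * b)) * κ =
            κ + l ^ (m + 1) * ((l ^ (m + 1) * n1 - 1) * b * κ) := by ring
        rw [this, pow_add X κ (l ^ (m + 1) * ((l ^ (m + 1) * n1 - 1) * b * κ))]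
        have h4 : (X : (AlgebraicClosure (ZMod l))[X]) ^ κ *
            X ^ (l ^ (m + 1) * ((l ^ (m + 1) * n1 - 1) * b * κ)) - X ^ κ =
            X ^ κ * (X ^ (l ^ (m + 1) * ((l ^ (m + 1) * n1 - 1) * b * κ)) - 1) := by ring
        rw [h4]
        exact Dvd.dvd.mul_left (hdiv _) _
      have e2 : (X : (AlgebraicClosure (ZMod l))[X]) ^ (l ^ (m + 1)) - 1 ∣
          ((g κ).map φ).comp (C ξ * X ^ (l ^ (m + 1) * b)) - C (eval ξ ((g κ).map φ)) := by
        have h4 := sub_dvd_eval_sub (C ξ * X ^ (l ^ (m + 1) * b)) (C ξ) (((g κ).map φ).map C)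
        rw [eval_map, eval_map] at h4
        have h5 : eval₂ C (C ξ) ((g κ).map φ) = C (eval ξ ((g κ).map φ)) := by
          rw [eval₂_at_apply]
        rw [h5] at h4
        refine Dvd.dvd.trans ?_ h4
        have h6 : (C ξ * X ^ (l ^ (m + 1) * b) - C ξ : (AlgebraicClosure (ZMod l))[X]) =
            C ξ * (X ^ (l ^ (m + 1) * b) - 1) := by ring
        rw [h6]
        exact Dvd.dvd.mul_left (hdiv _) _
      have h7 : X ^ ((1 + (l ^ (m + 1) * n1 - 1) * (l ^ (m + 1) * b)) * κ) *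
          ((g κ).map φ).comp (C ξ * X ^ (l ^ (m + 1) * b)) -
          C (eval ξ ((g κ).map φ)) * X ^ κ =
          X ^ ((1 + (l ^ (m + 1) * n1 - 1) * (l ^ (m + 1) * b)) * κ) *
          (((g κ).map φ).comp (C ξ * X ^ (l ^ (m + 1) * b)) - C (eval ξ ((g κ).map φ))) +
          (X ^ ((1 + (l ^ (m + 1) * n1 - 1) * (l ^ (m + 1) * b)) * κ) - X ^ κ) *
          C (eval ξ ((g κ).map φ)) := by ring
      rw [h7]
      exact dvd_add (Dvd.dvd.mul_left e2 _) (Dvd.dvd.mul_right e1 _)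
    have h3 : (X - 1 : (AlgebraicClosure (ZMod l))[X]) ^ (6 * l ^ m) ∣ f0 := by
      have := dvd_sub h1 h2
      rwa [sub_sub_cancel] at this
    have hdeg : f0.natDegree < l ^ (m + 1) := by
      have hle : f0.natDegree ≤ l ^ (m + 1) - 1 := by
        rw [hf0]
        refine natDegree_sum_le_of_forall_le _ _ fun κ hκ => ?_
        refine (natDegree_C_mul_X_pow_le _ _).trans ?_
        have := hK κ hκ
        omega
      omega
    have hsupp : f0.support.card ≤ 6 := by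
      have hsub : f0.support ⊆ K := by
        intro i hi
        rw [mem_support_iff] at hi
        by_contra hcon
        apply hi
        rw [hf0, finsetSum_coeff]
        refine Finset.sum_eq_zero fun κ hκ => ?_
        rw [coeff_C_mul, coeff_X_pow, if_neg, mul_zero]
        rintro rfl
        exact hcon hκ
      exact (Finset.card_le_card hsub).trans hcard
    have hz := sparse_zero l m 6 f0 hdeg hsupp h3
    have hc := congrArg (fun p : (AlgebraicClosure (ZMod l))[X] => p.coeff κ0) hz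
    simp only [coeff_zero] at hc
    rw [hf0, finsetSum_coeff, Finset.sum_eq_single κ0] at hc
    · rw [coeff_C_mul, coeff_X_pow, if_pos rfl, mul_one] at hc
      rw [aeval_def, ← eval_map]
      exact hc
    · intro κ _ hne
      rw [coeff_C_mul, coeff_X_pow, if_neg (fun h => hne h.symm), mul_zero]
    · intro h
      exact absurd hκ0 h
  have hex : ∀ κ, ∃ h : ℤ[X], κ ∈ K → ∀ ξ : ℂ, IsPrimitiveRoot ξ n1 →
      aeval ξ (g κ) = (l : ℂ) * aeval ξ h := by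
    intro κ
    by_cases hκ : κ ∈ K
    · obtain ⟨h, hh⟩ := lift_dvd l n1 hn1 hcop (g κ) (hgv κ hκ)
      exact ⟨h, fun _ => hh⟩
    · exact ⟨0, fun h => absurd h hκ⟩
  choose hh hhz using hex
  refine ⟨hh, ?_⟩
  have hcopb : Nat.Coprime b n1 := by
    have h2 : Nat.Coprime (l ^ (m + 1) * b) n1 := by
      unfold Nat.Coprime
      rw [hb2.gcd_eq]; simp
    exact Nat.Coprime.coprime_mul_left h2
  have hzp : IsPrimitiveRoot (ω ^ (l ^ (m + 1) * b)) n1 := by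
    rw [pow_mul]
    exact (hω.pow (Nat.mul_pos hqpos hn1) rfl).pow_of_coprime b hcopb
  rw [NF, NF, map_sum, map_sum, Finset.mul_sum]
  refine Finset.sum_congr rfl fun κ hκ => ?_
  rw [map_mul, map_mul, aeval_comp, aeval_comp, map_pow (aeval ω) X (l ^ (m + 1) * b), aeval_X,
    hhz κ hκ _ hzp]
  ring

theorem nf_init (l : ℕ) [hl : Fact l.Prime] (m n1 : ℕ) (hn1 : 0 < n1)
    (b : ℕ) (hb2 : l ^ (m + 1) * b ≡ 1 [MOD n1])
    {T : Type} [Fintype T] (hT : Fintype.card T ≤ 6) (a : T → ℤ) (ε : T → ℕ)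
    (ω : ℂ) (hω : IsPrimitiveRoot ω (l ^ (m + 1) * n1)) :
    ∃ (K : Finset ℕ) (g : ℕ → ℤ[X]), (∀ κ ∈ K, κ < l ^ (m + 1)) ∧ K.card ≤ 6 ∧
      aeval ω (∑ t, C (a t) * X ^ ε t : ℤ[X]) = aeval ω (NF (l ^ (m + 1)) n1 b K g) := by
  classical
  have hlpos : 0 < l := hl.out.pos
  set q := l ^ (m + 1) with hq
  have hqpos : 0 < q := pow_pos hlpos _
  let g : ℕ → ℤ[X] := fun κ => ∑ t ∈ Finset.univ.filter (fun t => ε t % q = κ),
    C (a t) * X ^ ε t
  refine ⟨Finset.univ.image (fun t => ε t % q), g, ?_, ?_, ?_⟩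
  · intro κ hκ
    obtain ⟨t, -, rfl⟩ := Finset.mem_image.1 hκ
    exact Nat.mod_lt _ hqpos
  · refine Finset.card_image_le.trans ?_
    rw [Finset.card_univ]; exact hT
  have hωq : IsPrimitiveRoot (ω ^ q) n1 := hω.pow (Nat.mul_pos hqpos hn1) rfl
  set z : ℂ := ω ^ (q * b) with hz
  have hω0 : ω ≠ 0 := hω.ne_zero (Nat.mul_pos hqpos hn1).ne'
  have hz0 : z ≠ 0 := pow_ne_zero _ hω0
  set ζ : ℂ := ω * z⁻¹ with hζ
  have hωζ : ω = ζ * z := by rw [hζ, mul_assoc, inv_mul_cancel₀ hz0, mul_one]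
  have hzq : z ^ q = ω ^ q := by
    have h1 : (ω ^ q) ^ (q * b) = (ω ^ q) ^ 1 :=
      pow_eq_pow_of_modEq hb2 hωq.pow_eq_one
    rw [hz, ← pow_mul, mul_comm (q * b) q, pow_mul, h1, pow_one]
  have hζq : ζ ^ q = 1 := by
    rw [hζ, mul_pow, inv_pow, hzq, mul_inv_cancel₀ (pow_ne_zero _ hω0)]
  have hζmod : ∀ e, ζ ^ e = ζ ^ (e % q) := by
    intro e
    conv_lhs => rw [← Nat.mod_add_div e q, pow_add, pow_mul, hζq, one_pow, mul_one]
  have hzinv : z⁻¹ = z ^ (q * n1 - 1) := by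
    have h1 : z ^ (q * n1) = 1 := by
      rw [hz, ← pow_mul, mul_comm (q * b), pow_mul, hω.pow_eq_one, one_pow]
    have h2 : z ^ (q * n1 - 1) * z = 1 := by
      rw [← pow_succ, Nat.sub_add_cancel (Nat.mul_pos hqpos hn1), h1]
    exact (eq_inv_of_mul_eq_one_left h2).symm
  have hζω : ζ = ω ^ (1 + (q * n1 - 1) * (q * b)) := by
    rw [hζ, hzinv, pow_add, pow_one, mul_comm (q * n1 - 1) (q * b), pow_mul, ← hz]
  rw [NF, map_sum, map_sum]
  have h1 : ∀ κ ∈ Finset.univ.image (fun t => ε t % q),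
      aeval ω (X ^ ((1 + (q * n1 - 1) * (q * b)) * κ) * (g κ).comp (X ^ (q * b))) =
      ∑ t, if ε t % q = κ then (a t : ℂ) * ω ^ ε t else 0 := by
    intro κ _
    rw [map_mul, map_pow, aeval_X, aeval_comp, map_pow, aeval_X, ← hz, pow_mul, ← hζω]
    simp only [g]
    rw [map_sum, Finset.mul_sum, Finset.sum_filter]
    refine Finset.sum_congr rfl fun t _ => ?_
    by_cases hk : ε t % q = κ
    · rw [if_pos hk, if_pos hk, hωζ, mul_pow ζ z, hζmod (ε t), hk]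
      simp
      ring
    · rw [if_neg hk, if_neg hk]
  rw [Finset.sum_congr rfl h1, Finset.sum_comm]
  refine Finset.sum_congr rfl fun t _ => ?_
  rw [Finset.sum_ite_eq, if_pos (Finset.mem_image_of_mem _ (Finset.mem_univ t))]
  simp


theorem nf_descent (l : ℕ) [hl : Fact l.Prime] (h17 : 17 ≤ l) (m n1 : ℕ) (hn1 : 0 < n1)
    (hcop : ¬ l ∣ n1) (b : ℕ) (hb2 : l ^ (m + 1) * b ≡ 1 [MOD n1]) (K : Finset ℕ)
    (hK : ∀ κ ∈ K, κ < l ^ (m + 1)) (hcard : K.card ≤ 6)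
    (ω : ℂ) (hω : IsPrimitiveRoot ω (l ^ (m + 1) * n1)) (E1 E2 : ℕ)
    (h1 : E1 < l ^ (m + 1) * n1) (h1' : 0 < E1) (h1'' : 2 * E1 ≠ l ^ (m + 1) * n1)
    (h2 : E2 < l ^ (m + 1) * n1) (h2' : 0 < E2) (h2'' : 2 * E2 ≠ l ^ (m + 1) * n1)
    (R1 : ℤ[X]) (hR : ∀ V : ℤ[X], aeval ω R1 ≠ (l : ℂ) * aeval ω V) (j : ℕ) :
    ∀ g : ℕ → ℤ[X], aeval ω ((NF (l ^ (m + 1)) n1 b K g) ^ 2 *
      (X ^ E1 - X ^ (l ^ (m + 1) * n1 - E1)) * (X ^ E2 - X ^ (l ^ (m + 1) * n1 - E2))) =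
      (l : ℂ) ^ (2 * j + 1) * aeval ω R1 → False := by
  have hlpos : 0 < l := hl.out.pos
  have hlC : (l : ℂ) ≠ 0 := by exact_mod_cast hlpos.ne'
  have step : ∀ (i : ℕ) (g : ℕ → ℤ[X]), aeval ω ((NF (l ^ (m + 1)) n1 b K g) ^ 2 *
      (X ^ E1 - X ^ (l ^ (m + 1) * n1 - E1)) * (X ^ E2 - X ^ (l ^ (m + 1) * n1 - E2))) =
      (l : ℂ) ^ (i + 1) * aeval ω R1 → ∃ h : ℕ → ℤ[X],
      (l : ℂ) * aeval ω ((NF (l ^ (m + 1)) n1 b K h) ^ 2 *
      (X ^ E1 - X ^ (l ^ (m + 1) * n1 - E1)) * (X ^ E2 - X ^ (l ^ (m + 1) * n1 - E2))) =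
      (l : ℂ) ^ i * aeval ω R1 := by
    intro i g hg
    have hmain : aeval ω ((NF (l ^ (m + 1)) n1 b K g) ^ 2 *
      (X ^ E1 - X ^ (l ^ (m + 1) * n1 - E1)) * (X ^ E2 - X ^ (l ^ (m + 1) * n1 - E2)) -
      C (l : ℤ) * (C ((l : ℤ) ^ i) * R1)) = 0 := by
      rw [map_sub, hg, map_mul, map_mul]
      simp
      ring
    obtain ⟨h, hh⟩ := nf_step l (by omega) m n1 hn1 hcop b hb2 K hK hcard g
      (fun ξ hξ => dvd_of_eq l (by omega) m n1 hn1 hcop ω hω _ _ E1 E2 h1 h1' h1'' h2 h2' h2''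
        hmain ξ hξ) ω hω
    refine ⟨h, ?_⟩
    apply mul_left_cancel₀ hlC
    rw [map_mul, map_mul, map_pow, hh] at hg
    rw [map_mul, map_mul, map_pow]
    linear_combination hg
  induction j with
  | zero =>
    intro g hg
    obtain ⟨h, hh⟩ := step 0 g (by simpa using hg)
    rw [pow_zero, one_mul] at hh
    exact hR _ hh.symm
  | succ j ih =>
    intro g hg
    obtain ⟨h, hh⟩ := step (2 * j + 2) g (by rw [hg]; ring)
    refine ih h ?_
    apply mul_left_cancel₀ hlC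
    rw [hh]
    ring

/-- TARGET -/
theorem rational_main3 (l k0 j0 : ℕ) (hl : l.Prime) (h17 : 17 ≤ l) (hk0 : ¬ l ∣ k0) (n : ℕ)
    (θ A c : Fin 3 → ℕ) (hθ : ∀ k, 0 < θ k) (hA : ∀ k, 0 < A k)
    (hθs : θ 0 + θ 1 + θ 2 = n) (hAs : A 0 + A 1 + A 2 = n)
    (x : ℝ) (hx : x = ∑ k, (c k : ℝ) * (2 * Real.sin (Real.pi * θ k / n)))
    (h : x ^ 2 * (2 * Real.sin (Real.pi * A 1 / n)) * (2 * Real.sin (Real.pi * A 2 / n)) =
      ((k0 * l ^ (2 * j0 + 1) : ℕ) : ℝ) * (∏ k, (2 * Real.sin (Real.pi * θ k / n))) * (2 * Real.sin (Real.pi * A 0 / n))) :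
    False := by
  have _ : Fact l.Prime := ⟨hl⟩
  have hlpos : 0 < l := hl.pos
  have hn : 0 < n := by have := hθ 0; omega
  have hθn : ∀ k, θ k < n := by
    intro k
    have h0 := hθ 0
    have h1 := hθ 1
    have h2 := hθ 2
    fin_cases k <;> simp <;> omega
  have hAn : ∀ k, A k < n := by
    intro k
    have h0 := hA 0
    have h1 := hA 1
    have h2 := hA 2
    fin_cases k <;> simp <;> omega
  have hsin : ∀ k, 0 < Real.sin (Real.pi * θ k / n) := by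
    intro k
    have h1 : (0 : ℝ) < θ k := by exact_mod_cast hθ k
    have h2 : (θ k : ℝ) < n := by exact_mod_cast hθn k
    have h3 : (0 : ℝ) < n := by exact_mod_cast hn
    apply Real.sin_pos_of_pos_of_lt_pi
    · positivity
    · rw [div_lt_iff₀ h3]
      exact mul_lt_mul_of_pos_left h2 Real.pi_pos
  have hN : 2 * n * l ≠ 0 := by positivity
  obtain ⟨v, n1, hcop, hNv⟩ := Nat.exists_eq_pow_mul_and_not_dvd hN l hl.ne_one
  obtain ⟨m, rfl⟩ : ∃ m, v = m + 1 := by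
    rcases v with _ | m
    · exfalso
      rw [pow_zero, one_mul] at hNv
      exact hcop (hNv ▸ Dvd.intro_left (2 * n) rfl)
    · exact ⟨m, rfl⟩
  have hn1 : 0 < n1 := by
    rcases Nat.eq_zero_or_pos n1 with h0 | h0
    · rw [h0, mul_zero] at hNv; exact absurd hNv hN
    · exact h0
  set ω : ℂ := Complex.exp (2 * Real.pi * Complex.I / ((2 * n * l : ℕ) : ℂ)) with hωdef
  have hω : IsPrimitiveRoot ω (2 * n * l) := Complex.isPrimitiveRoot_exp _ hN
  rw [hNv] at hω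
  let S : ℕ → ℤ[X] := fun E => X ^ E - X ^ (l ^ (m + 1) * n1 - E)
  have hS : ∀ t, t ≤ 2 * n → aeval ω (S (l * t)) =
      Complex.I * ((2 * Real.sin (Real.pi * t / n) : ℝ) : ℂ) := by
    intro t ht
    simp only [S]
    rw [map_sub, map_pow, map_pow, aeval_X, ← hNv]
    exact j6858_S n l hn hlpos t ht
  let a : Fin 3 × Bool → ℤ := fun t => if t.2 then (c t.1 : ℤ) else -(c t.1 : ℤ)
  let ε : Fin 3 × Bool → ℕ := fun t => if t.2 then l * θ t.1 else l ^ (m + 1) * n1 - l * θ t.1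
  set Y : ℤ[X] := ∑ t, C (a t) * X ^ ε t with hY
  have hYS : Y = ∑ k : Fin 3, C (c k : ℤ) * S (l * θ k) := by
    rw [hY, Fintype.sum_prod_type]
    refine Finset.sum_congr rfl fun k _ => ?_
    simp only [a, ε, S, Fintype.sum_bool, if_true, Bool.false_eq_true, if_false, C_neg]
    ring
  have hYω : aeval ω Y = Complex.I * (x : ℂ) := by
    rw [hYS, map_sum, hx]
    push_cast
    rw [Finset.mul_sum]
    refine Finset.sum_congr rfl fun k _ => ?_
    rw [map_mul, hS (θ k) (by have := hθn k; omega)]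
    simp
    ring
  let R0 : ℤ[X] := (∏ k, S (l * θ k)) * S (l * A 0)
  let R : ℤ[X] := C (k0 : ℤ) * R0
  have hmain : aeval ω (Y ^ 2 * (X ^ (l * A 1) - X ^ (l ^ (m + 1) * n1 - l * A 1)) *
      (X ^ (l * A 2) - X ^ (l ^ (m + 1) * n1 - l * A 2)) - C ((l : ℤ) ^ (2 * j0 + 1)) * R) = 0 := by
    change aeval ω (Y ^ 2 * S (l * A 1) * S (l * A 2) - C ((l : ℤ) ^ (2 * j0 + 1)) * R) = 0
    rw [map_sub, map_mul, map_mul, map_pow, hYω, hS (A 1) (by have := hAn 1; omega),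
      hS (A 2) (by have := hAn 2; omega), map_mul]
    simp only [R, R0]
    rw [map_mul, map_mul, map_prod, hS (A 0) (by have := hAn 0; omega)]
    have hprod : ∏ k, aeval ω (S (l * θ k)) =
        ∏ k, (Complex.I * ((2 * Real.sin (Real.pi * θ k / n) : ℝ) : ℂ)) :=
      Finset.prod_congr rfl fun k _ => hS (θ k) (by have := hθn k; omega)
    rw [hprod, Finset.prod_mul_distrib]
    have hI : (∏ _k : Fin 3, Complex.I) = Complex.I ^ 3 := by simp
    rw [hI, ← Complex.ofReal_prod]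
    have hh := congrArg (fun r : ℝ => (r : ℂ)) h
    have hl2 : aeval ω (C ((l : ℤ) ^ (2 * j0 + 1)) : ℤ[X]) = (l : ℂ) ^ (2 * j0 + 1) := by simp
    have hk2 : aeval ω (C (k0 : ℤ) : ℤ[X]) = (k0 : ℂ) := by simp
    rw [hl2, hk2]
    have hI2 : Complex.I ^ 2 = -1 := Complex.I_sq
    have e1 : (Complex.I * (x : ℂ)) ^ 2 * (Complex.I * ((2 * Real.sin (Real.pi * A 1 / n) : ℝ) : ℂ)) *
        (Complex.I * ((2 * Real.sin (Real.pi * A 2 / n) : ℝ) : ℂ)) =
        ((x ^ 2 * (2 * Real.sin (Real.pi * A 1 / n)) * (2 * Real.sin (Real.pi * A 2 / n)) : ℝ) : ℂ) := by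
      push_cast
      linear_combination ((x : ℂ) ^ 2 * (2 * Complex.sin (Real.pi * A 1 / n)) *
        (2 * Complex.sin (Real.pi * A 2 / n))) * (Complex.I ^ 2 - 1) * hI2
    have e2 : (l : ℂ) ^ (2 * j0 + 1) * ((k0 : ℂ) * (Complex.I ^ 3 *
        ((∏ k, (2 * Real.sin (Real.pi * θ k / n)) : ℝ) : ℂ) *
        (Complex.I * ((2 * Real.sin (Real.pi * A 0 / n) : ℝ) : ℂ)))) =
        ((((k0 * l ^ (2 * j0 + 1) : ℕ) : ℝ) * (∏ k, (2 * Real.sin (Real.pi * θ k / n))) * (2 * Real.sin (Real.pi * A 0 / n)) : ℝ) : ℂ) := by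
      push_cast
      linear_combination ((k0 : ℂ) * (l : ℂ) ^ (2 * j0 + 1) * (∏ k, (2 * Complex.sin (Real.pi * θ k / n))) *
        (2 * Complex.sin (Real.pi * A 0 / n))) * (Complex.I ^ 2 - 1) * hI2
    rw [e1, e2, hh, sub_self]
  have hb : ∀ k, l * A k < l ^ (m + 1) * n1 := by
    intro k
    rw [← hNv]
    have := hAn k
    calc l * A k < l * n := Nat.mul_lt_mul_of_pos_left this hlpos
      _ ≤ 2 * n * l := by nlinarith
  have hb2 : ∀ k, 2 * (l * A k) ≠ l ^ (m + 1) * n1 := by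
    intro k
    rw [← hNv]
    have := hAn k
    have h3 : 2 * (l * A k) < 2 * n * l := by
      calc 2 * (l * A k) = 2 * l * A k := by ring
        _ < 2 * l * n := Nat.mul_lt_mul_of_pos_left this (by omega)
        _ = 2 * n * l := by ring
    omega
  have hbθ : ∀ k, l * θ k < l ^ (m + 1) * n1 := by
    intro k
    rw [← hNv]
    have := hθn k
    calc l * θ k < l * n := Nat.mul_lt_mul_of_pos_left this hlpos
      _ ≤ 2 * n * l := by nlinarith
  have hb2θ : ∀ k, 2 * (l * θ k) ≠ l ^ (m + 1) * n1 := by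
    intro k
    rw [← hNv]
    have := hθn k
    have h3 : 2 * (l * θ k) < 2 * n * l := by
      calc 2 * (l * θ k) = 2 * l * θ k := by ring
        _ < 2 * l * n := Nat.mul_lt_mul_of_pos_left this (by omega)
        _ = 2 * n * l := by ring
    omega
  have hcop2 : Nat.Coprime (l ^ (m + 1)) n1 :=
    Nat.Coprime.pow_left _ ((Nat.Prime.coprime_iff_not_dvd hl).mpr hcop)
  obtain ⟨b, hb2'⟩ : ∃ b : ℕ, l ^ (m + 1) * b ≡ 1 [MOD n1] := by
    rcases Nat.eq_or_lt_of_le (Nat.succ_le_of_lt hn1) with h1 | h1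
    · exact ⟨0, by rw [← h1]; exact Nat.modEq_one⟩
    · obtain ⟨b, hb⟩ := Nat.exists_mul_mod_eq_one_of_coprime hcop2 h1
      refine ⟨b, ?_⟩
      unfold Nat.ModEq
      rw [hb.2, Nat.mod_eq_of_lt h1]
  obtain ⟨K, g, hK, hcard, hg⟩ := nf_init l m n1 hn1 b hb2' (T := Fin 3 × Bool) (by simp) a ε ω hω
  refine nf_descent l h17 m n1 hn1 hcop b hb2' K hK hcard ω hω (l * A 1) (l * A 2)
    (hb 1) (Nat.mul_pos hlpos (hA 1)) (hb2 1) (hb 2) (Nat.mul_pos hlpos (hA 2)) (hb2 2)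
    R ?_ j0 g ?_
  swap
  · change aeval ω (Y ^ 2 * S (l * A 1) * S (l * A 2) - C ((l : ℤ) ^ (2 * j0 + 1)) * R) = 0 at hmain
    have hl2 : aeval ω (C ((l : ℤ) ^ (2 * j0 + 1)) : ℤ[X]) = (l : ℂ) ^ (2 * j0 + 1) := by simp
    rw [map_sub, map_mul (aeval ω) (C ((l : ℤ) ^ (2 * j0 + 1))), hl2, sub_eq_zero] at hmain
    rw [← hmain]
    change aeval ω (_ * S (l * A 1) * S (l * A 2)) = _
    rw [map_mul, map_mul, map_pow, ← hg, map_mul, map_mul, map_pow]
  intro V hV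
  have hG : aeval ω (C (k0 : ℤ) * R0 - C (l : ℤ) * V) = 0 := by
    change aeval ω (C (k0 : ℤ) * R0) = _ at hV
    have hl2 : aeval ω (C (l : ℤ) : ℤ[X]) = (l : ℂ) := by simp
    rw [map_sub, hV, map_mul, hl2, sub_self]
  have hN0 : 0 < l ^ (m + 1) * n1 := Nat.mul_pos (pow_pos hlpos _) hn1
  haveI : CharP (AlgebraicClosure (ZMod l)) l := charP_of_injective_algebraMap
    (algebraMap (ZMod l) (AlgebraicClosure (ZMod l))).injective l
  have hnK : ((n1 : ℕ) : AlgebraicClosure (ZMod l)) ≠ 0 := by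
    intro h
    rw [CharP.cast_eq_zero_iff (AlgebraicClosure (ZMod l)) l] at h
    exact hcop h
  have hneK : NeZero ((n1 : ℕ) : AlgebraicClosure (ZMod l)) := ⟨hnK⟩
  have hn10 : NeZero n1 := ⟨hn1.ne'⟩
  obtain ⟨ξ, hξ⟩ := HasEnoughRootsOfUnity.exists_primitiveRoot (AlgebraicClosure (ZMod l)) n1
  set φ := algebraMap ℤ (AlgebraicClosure (ZMod l)) with hφ
  have hdvd : cyclotomic (l ^ (m + 1) * n1) ℤ ∣
      (C (k0 : ℤ) * R0 - C (l : ℤ) * V) := by
    rw [cyclotomic_eq_minpoly hω hN0]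
    exact minpoly.isIntegrallyClosed_dvd (hω.isIntegral hN0) hG
  have hdvd2 := Polynomial.map_dvd φ hdvd
  rw [map_cyclotomic, cyclotomic_mul_prime_pow_eq _ hcop (Nat.succ_pos m)] at hdvd2
  have hcl : φ (l : ℤ) = 0 := by
    simp
  have hck : φ (k0 : ℤ) ≠ 0 := by
    intro h
    apply hk0
    rw [← CharP.cast_eq_zero_iff (AlgebraicClosure (ZMod l)) l]
    simpa using h
  have hGm : (C (k0 : ℤ) * R0 - C (l : ℤ) * V).map φ =
      C (φ (k0 : ℤ)) * ((∏ k, (X ^ (l * θ k) - X ^ (l ^ (m + 1) * n1 - l * θ k))) *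
        (X ^ (l * A 0) - X ^ (l ^ (m + 1) * n1 - l * A 0))) := by
    simp only [R0, S, Polynomial.map_sub, Polynomial.map_mul, Polynomial.map_pow, Polynomial.map_X,
      Polynomial.map_C, hcl, C_0, zero_mul, sub_zero, Polynomial.map_prod]
  rw [hGm] at hdvd2
  have hroot : (X - C ξ) ∣ cyclotomic n1 (AlgebraicClosure (ZMod l)) :=
    dvd_iff_isRoot.2 (hξ.isRoot_cyclotomic hn1)
  have hdvd3 := (pow_dvd_pow_of_dvd hroot (l ^ (m + 1) - l ^ (m + 1 - 1))).trans hdvd2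
  have hs := fun k => aux_mult2 (F := AlgebraicClosure (ZMod l)) l m n1 (l * θ k)
    (Nat.mul_pos hlpos (hθ k)) (hbθ k) (hb2θ k) ξ hξ hn1 hcop
  have hsA := aux_mult2 (F := AlgebraicClosure (ZMod l)) l m n1 (l * A 0)
    (Nat.mul_pos hlpos (hA 0)) (hb 0) (hb2 0) ξ hξ hn1 hcop
  rw [Fin.prod_univ_three] at hdvd3
  have hCk : (C (φ (k0 : ℤ)) : (AlgebraicClosure (ZMod l))[X]) ≠ 0 := by
    rwa [Ne, C_eq_zero]
  have n01 := mul_ne_zero (hs 0).1 (hs 1).1
  have n012 := mul_ne_zero n01 (hs 2).1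
  have n3 := mul_ne_zero n012 hsA.1
  have n4 := mul_ne_zero hCk n3
  have hle := (le_rootMultiplicity_iff n4).2 hdvd3
  rw [rootMultiplicity_mul n4, rootMultiplicity_C, zero_add, rootMultiplicity_mul n3,
    rootMultiplicity_mul n012, rootMultiplicity_mul n01] at hle
  have hpow : l ^ (m + 1) = l * l ^ m := by ring
  have hge : 15 * l ^ m ≤ l ^ (m + 1) := by
    rw [hpow]; exact Nat.mul_le_mul_right _ (by omega)
  rw [Nat.add_sub_cancel] at hle
  have hs0 := (hs 0).2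
  have hs1 := (hs 1).2
  have hs2 := (hs 2).2
  have hs3 := hsA.2
  have hlm : 0 < l ^ m := pow_pos hlpos m
  omega

end Pool.Agent.Helper549.Tri2.RatMain3
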