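import Mathlib
import Pool.Agent.Helper549.Tri.Defs
import Pool.Agent.Helper549.Tri.Basic
import Pool.Agent.Helper549.Tri.Angles
import Pool.Agent.Helper549.Tri.RatFalse
import Pool.Agent.Helper549.Tri2.RatMain3
import Pool.Agent.Helper549.Tri.Odd
import Pool.Agent.Helper549.Tri.Corner
import Pool.Agent.Helper549.Tri.AngleSum
import Pool.Agent.Helper549.Tri.Vertex
set_option autoImplicit false
noncomputable section
open scoped BigOperators
open MeasureTheory

namespace Pool.Agent.Helper549.Tri2.RatFalse3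
open Pool.Agent.Helper549.Tri Pool.Agent.Helper549.Tri.RatFalse Pool.Agent.Helper549.Tri2.RatMain3
open Pool.Agent.Helper549.Tri.Basic Pool.Agent.Helper549.Tri.Angles Pool.Agent.Helper549.Tri.RatMain Pool.Agent.Helper549.Tri.Odd Pool.Agent.Helper549.Tri.Corner Pool.Agent.Helper549.Tri.AngleSum Pool.Agent.Helper549.Tri.Vertex

/-- TARGET: the number of tiles contains a prime at least 17 with an odd exponent, all tile angles rational
multiples of pi: impossible -/
theorem rational_false3 {N : ℕ} (l k0 j0 : ℕ) (hl : l.Prime) (h17 : 17 ≤ l) (hk0 : ¬ l ∣ k0)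
    (hN : N = k0 * l ^ (2 * j0 + 1)) {T : Fin 3 → ℂ}
    {t : Fin N → Fin 3 → ℂ} (h : Dis N T t)
    (τ : Fin N → Equiv.Perm (Fin 3)) (ℓ θ : Fin 3 → ℝ) (hlen : ∀ i m, len (t i) m = ℓ (τ i m))
    (hang : ∀ i m, ang (t i) m = θ (τ i m)) (hrat : ∀ k, ∃ q : ℚ, θ k = q * Real.pi) : False := by
  classical
  have hN0 : 0 < N := by
    rw [hN]
    refine Nat.mul_pos ?_ (pow_pos hl.pos _)
    rcases Nat.eq_zero_or_pos k0 with h0 | h0
    · rw [h0] at hk0
      exact absurd (dvd_zero l) hk0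
    · exact h0
  obtain ⟨i0, -⟩ : ∃ i0 : Fin N, i0 = ⟨0, hN0⟩ := ⟨_, rfl⟩
  have hπ := Real.pi_pos
  -- tile angles
  have hθpos : ∀ k, 0 < θ k := by
    intro k
    have h1 := ang_pos (t i0) (h.ccwt i0) ((τ i0).symm k)
    rw [hang, Equiv.apply_symm_apply] at h1
    exact h1
  have hθlt : ∀ k, θ k < Real.pi := by
    intro k
    have h1 := ang_lt_pi (t i0) (h.ccwt i0) ((τ i0).symm k)
    rw [hang, Equiv.apply_symm_apply] at h1
    exact h1
  have hθsum : θ 0 + θ 1 + θ 2 = Real.pi := by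
    have h1 := ang_sum (t i0) (h.ccwt i0)
    rw [hang, hang, hang] at h1
    have h2 := Equiv.sum_comp (τ i0) θ
    rw [Fin.sum_univ_three, Fin.sum_univ_three] at h2
    rw [← h2]; exact h1
  have hℓpos : ∀ k, 0 < ℓ k := by
    intro k
    have h1 := len_pos (t i0) (h.ccwt i0) ((τ i0).symm k)
    rw [hlen, Equiv.apply_symm_apply] at h1
    exact h1
  have hsin : ∀ k, 0 < Real.sin (θ k) := fun k => Real.sin_pos_of_pos_of_lt_pi (hθpos k) (hθlt k)
  choose q hq using hrat
  have hqpos : ∀ k, 0 < q k := by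
    intro k
    have h1 := hθpos k
    rw [hq k] at h1
    have h2 : (0 : ℝ) < (q k : ℝ) := (mul_pos_iff_of_pos_right hπ).1 h1
    exact_mod_cast h2
  obtain ⟨n, hn, th, hth⟩ := denom7317 q hqpos
  have hnR : (0 : ℝ) < n := by exact_mod_cast hn
  have hθeq : ∀ k, θ k = Real.pi * th k / n := by
    intro k
    rw [(hth k).2, hq k]
    field_simp
  have hths : th 0 + th 1 + th 2 = n := by
    have h1 := hθsum
    rw [hθeq 0, hθeq 1, hθeq 2] at h1
    have h2 : ((th 0 : ℝ) + th 1 + th 2) = n := by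
      have h3 : Real.pi * ((th 0 : ℝ) + th 1 + th 2) = Real.pi * n := by
        have h4 : Real.pi * (th 0 : ℝ) / n + Real.pi * th 1 / n + Real.pi * th 2 / n =
          Real.pi * ((th 0 : ℝ) + th 1 + th 2) / n := by ring
        rw [h4, div_eq_iff hnR.ne'] at h1
        exact h1
      exact mul_left_cancel₀ hπ.ne' h3
    exact_mod_cast h2
  -- corner angles of T
  obtain ⟨A, hA⟩ : ∃ A : Fin 3 → ℕ, A = fun j => ∑ k, cnt t τ (T j) k * th k := ⟨_, rfl⟩
  have hAeq : ∀ j, ang T j = Real.pi * A j / n := by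
    intro j
    rw [← corner_angles h τ θ hang j, hA]
    push_cast
    rw [Finset.mul_sum, Finset.sum_div]
    apply Finset.sum_congr rfl
    intro k _
    rw [hθeq k]
    ring
  have hApos : ∀ j, 0 < A j := by
    intro j
    have h1 := ang_pos T h.ccwT j
    rw [hAeq j] at h1
    rcases Nat.eq_zero_or_pos (A j) with h2 | h2
    · rw [h2] at h1
      simp at h1
    · exact h2
  have hAs : A 0 + A 1 + A 2 = n := by
    have h1 := ang_sum T h.ccwT
    rw [hAeq 0, hAeq 1, hAeq 2] at h1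
    have h2 : ((A 0 : ℝ) + A 1 + A 2) = n := by
      have h3 : Real.pi * ((A 0 : ℝ) + A 1 + A 2) = Real.pi * n := by
        have h4 : Real.pi * (A 0 : ℝ) / n + Real.pi * A 1 / n + Real.pi * A 2 / n =
          Real.pi * ((A 0 : ℝ) + A 1 + A 2) / n := by ring
        rw [h4, div_eq_iff hnR.ne'] at h1
        exact h1
      exact mul_left_cancel₀ hπ.ne' h3
    exact_mod_cast h2
  -- a side of T with few tiles
  obtain ⟨j, -⟩ : ∃ j : Fin 3, j = 0 := ⟨_, rfl⟩
  obtain ⟨c, hc⟩ : ∃ c : Fin 3 → ℕ, c = fun k => ∑ i : Fin N, ∑ l : Fin 3,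
    if onBd T (t i) l j then (if τ i l = k then 1 else 0) else 0 := ⟨_, rfl⟩
  have hlenT : ∀ f : Fin 3 → ℝ, (∑ i, ∑ l, if onBd T (t i) l j then f (τ i l) else 0) =
      ∑ k, (c k : ℝ) * f k := by
    intro f
    rw [hc]
    simp only
    push_cast
    simp only [Finset.sum_mul]
    rw [Finset.sum_comm (s := (Finset.univ : Finset (Fin 3))) (t := (Finset.univ : Finset (Fin N)))]
    apply Finset.sum_congr rfl
    intro i _
    rw [Finset.sum_comm]
    apply Finset.sum_congr rfl
    intro l _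
    by_cases hb : onBd T (t i) l j
    · simp only [if_pos hb]
      simp only [ite_mul, one_mul, zero_mul]
      rw [Finset.sum_ite_eq]
      simp
    · simp only [if_neg hb]
      simp
  have hlen2 : len T j = ∑ k, (c k : ℝ) * ℓ k := by
    rw [← hlenT ℓ, ← bd_len h j]
    apply Finset.sum_congr rfl
    intro i _
    apply Finset.sum_congr rfl
    intro l _
    rw [hlen]
  -- sine law
  have hsl : ∀ k k', ℓ k * Real.sin (θ k') = ℓ k' * Real.sin (θ k) := by
    intro k k'
    have h1 := sine_law (t i0) (h.ccwt i0) ((τ i0).symm k) ((τ i0).symm k')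
    rw [hlen, hlen, hang, hang, Equiv.apply_symm_apply, Equiv.apply_symm_apply] at h1
    exact h1
  obtain ⟨D, hD⟩ : ∃ D : ℝ, D = ℓ 0 / Real.sin (θ 0) := ⟨_, rfl⟩
  have hDpos : 0 < D := by rw [hD]; exact div_pos (hℓpos 0) (hsin 0)
  have hℓD : ∀ k, ℓ k = D * Real.sin (θ k) := by
    intro k
    have h1 := hsl k 0
    rw [hD]
    have h2 := (hsin 0).ne'
    field_simp
    linarith
  obtain ⟨x, hx⟩ : ∃ x : ℝ, x = ∑ k, (c k : ℝ) * (2 * Real.sin (θ k)) := ⟨_, rfl⟩
  have hlenx : 2 * len T j = x * D := by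
    rw [hlen2, hx, Finset.mul_sum, Finset.sum_mul]
    apply Finset.sum_congr rfl
    intro k _
    rw [hℓD k]; ring
  have hlenTpos := len_pos T h.ccwT j
  -- area
  have harea : (N : ℝ) * (D ^ 2 * ∏ k, Real.sin (θ k)) = dd T := by
    rw [← area_sum h]
    have h1 : ∀ i, dd (t i) = D ^ 2 * ∏ k, Real.sin (θ k) := by
      intro i
      rw [dd_eq (t i) (h.ccwt i) 0, hlen, hlen, hang, hℓD, hℓD, ← Equiv.prod_comp (τ i),
        Fin.prod_univ_three]
      simp only [zero_add]
      ring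
    rw [Finset.sum_congr rfl (fun i _ => h1 i), Finset.sum_const, Finset.card_univ,
      Fintype.card_fin, nsmul_eq_mul]
  have hT1 := dd_eq T h.ccwT j
  have hT2 := sine_law T h.ccwT (j + 1) j
  have hT3 := sine_law T h.ccwT (j + 2) j
  have hkey : dd T * Real.sin (ang T j) =
      (len T j) ^ 2 * Real.sin (ang T (j + 1)) * Real.sin (ang T (j + 2)) := by
    rw [hT1]
    calc len T (j + 1) * len T (j + 2) * Real.sin (ang T j) * Real.sin (ang T j) =
        (len T (j + 1) * Real.sin (ang T j)) * (len T (j + 2) * Real.sin (ang T j)) := by ring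
      _ = _ := by rw [hT2, hT3]; ring
  have hfinal : x ^ 2 * (2 * Real.sin (ang T (j + 1))) * (2 * Real.sin (ang T (j + 2))) =
      N * (∏ k, (2 * Real.sin (θ k))) * (2 * Real.sin (ang T j)) := by
    have h1 : (∏ k, (2 * Real.sin (θ k))) = 8 * ∏ k, Real.sin (θ k) := by
      rw [Fin.prod_univ_three, Fin.prod_univ_three]; ring
    rw [h1]
    rw [← harea] at hkey
    have h2 : (len T j) ^ 2 = x ^ 2 * D ^ 2 / 4 := by
      have : len T j = x * D / 2 := by linarith
      rw [this]; ring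
    rw [h2] at hkey
    have hD2 : D ^ 2 ≠ 0 := by positivity
    apply mul_left_cancel₀ hD2
    linear_combination (-16) * hkey
  have hAj : A j + A (j + 1) + A (j + 2) = n := by
    rw [← hAs]
    fin_cases j
    · rfl
    · show A 1 + A 2 + A 0 = A 0 + A 1 + A 2
      ring
    · show A 2 + A 0 + A 1 = A 0 + A 1 + A 2
      ring
  refine rational_main3 l k0 j0 hl h17 hk0 n th ![A j, A (j + 1), A (j + 2)] c (fun k => (hth k).1) ?_ hths
    ?_ x ?_ ?_
  · intro k
    fin_cases k
    · exact hApos j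
    · exact hApos (j + 1)
    · exact hApos (j + 2)
  · exact hAj
  · rw [hx]
    apply Finset.sum_congr rfl
    intro k _
    rw [hθeq k]
  · have e : ∀ k, Real.pi * (th k : ℝ) / n = θ k := fun k => (hθeq k).symm
    simp only [e]
    show x ^ 2 * (2 * Real.sin (Real.pi * A (j + 1) / n)) * (2 * Real.sin (Real.pi * A (j + 2) / n)) =
      ((k0 * l ^ (2 * j0 + 1) : ℕ) : ℝ) * (∏ k, (2 * Real.sin (θ k))) * (2 * Real.sin (Real.pi * A j / n))
    rw [← hAeq, ← hAeq, ← hAeq, ← hN]
    exact hfinal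

end Pool.Agent.Helper549.Tri2.RatFalse3
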