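import Mathlib
import Pool.Agent.Helper549.Tri.SqDefs
import Pool.Agent.Helper549.Tri.MainEq
import Pool.Agent.Helper549.Tri.Setup
import Pool.Agent.Helper549.Tri2.RatFalse3
import Pool.Agent.Helper549.Tri2.EqTwo
import Pool.Agent.Helper549.Tri2.Count

set_option autoImplicit false

namespace Pool.Agent.Helper549.Tri2.Main

open Pool.Agent.Helper549.Tri

/-- the angles of congruent triangles are the same up to order -/
theorem angle_perm (Q R : Fin 3 → EuclideanSpace ℝ (Fin 2)) (σ : Equiv.Perm (Fin 3))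
    (h : ∀ k l, dist (R k) (R l) = dist (Q (σ k)) (Q (σ l))) (m : Fin 3) :
    angle R m = angle Q (σ m) := by
  unfold angle
  rw [Setup.angle_of_dist (R (m + 1)) (R m) (R (m + 2)) (Q (σ (m + 1))) (Q (σ m)) (Q (σ (m + 2)))
    (h _ _) (h _ _) (h _ _)]
  rcases Setup.perm3 σ m with ⟨h1, h2⟩ | ⟨h1, h2⟩
  · rw [h1, h2]
  · rw [h1, h2, EuclideanGeometry.angle_comm]

/-- complex coordinates, everything counterclockwise; the angles are those of the piece `P 0` -/
theorem setup2 {N : ℕ} [NeZero N] (A : Fin 3 → EuclideanSpace ℝ (Fin 2))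
    (P : Fin N → Fin 3 → EuclideanSpace ℝ (Fin 2)) (hA : AffineIndependent ℝ A)
    (hP : ∀ i, AffineIndependent ℝ (P i))
    (hdist : ∀ i, ∃ σ : Equiv.Perm (Fin 3), ∀ k l,
      dist (P i k) (P i l) = dist (P 0 (σ k)) (P 0 (σ l)))
    (hU : (⋃ i, convexHull ℝ (Set.range (P i))) = convexHull ℝ (Set.range A))
    (hD : ∀ i j, i ≠ j → Disjoint (interior (convexHull ℝ (Set.range (P i))))
          (interior (convexHull ℝ (Set.range (P j))))) :
    ∃ (T : Fin 3 → ℂ) (t : Fin N → Fin 3 → ℂ) (τ : Fin N → Equiv.Perm (Fin 3)) (ℓ θ : Fin 3 → ℝ)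
      (ρ : Equiv.Perm (Fin 3)),
      Dis N T t ∧ (∀ i m, len (t i) m = ℓ (τ i m)) ∧ (∀ i m, ang (t i) m = θ (τ i m)) ∧
      (∀ k, len T k = dist (A (ρ (k + 1))) (A (ρ (k + 2)))) ∧ (∀ k, θ k = angle (P 0) k) := by
  obtain ⟨ρ, hρ⟩ := Setup.orient A hA
  choose r hr using fun i => Setup.orient (P i) (hP i)
  choose σ hσ using hdist
  have hd : ∀ i a b, dist (Setup.eC (P i (r i a))) (Setup.eC (P i (r i b))) =
      dist (P 0 (σ i (r i a))) (P 0 (σ i (r i b))) := by
    intro i a b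
    rw [Setup.eC.dist_map, hσ]
  refine ⟨fun k => Setup.eC (A (ρ k)), fun i k => Setup.eC (P i (r i k)),
    fun i => (r i).trans (σ i),
    fun k => dist (P 0 (k + 1)) (P 0 (k + 2)),
    fun k => EuclideanGeometry.angle (P 0 (k + 1)) (P 0 k) (P 0 (k + 2)), ρ, ?_, ?_, ?_, ?_, ?_⟩
  · refine ⟨hρ, hr, ?_, ?_⟩
    · rw [Setup.hull_img A ρ, ← hU, Set.image_iUnion]
      refine Set.iUnion_congr fun i => ?_
      exact Setup.hull_img (P i) (r i)
    · intro i j hij
      rw [Setup.hull_img (P i) (r i), Setup.hull_img (P j) (r j)]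
      have h1 : ∀ S : Set (EuclideanSpace ℝ (Fin 2)),
          interior (Setup.eC '' S) = Setup.eC '' interior S :=
        fun S => (Setup.eC.toHomeomorph.image_interior S).symm
      rw [h1, h1]
      exact (Set.disjoint_image_iff Setup.eC.injective).2 (hD i j hij)
  · intro i m
    show ‖Setup.eC (P i (r i (m + 2))) - Setup.eC (P i (r i (m + 1)))‖ = _
    rw [← dist_eq_norm, hd]
    show dist (P 0 (((r i).trans (σ i)) (m + 2))) (P 0 (((r i).trans (σ i)) (m + 1))) =
      dist (P 0 (((r i).trans (σ i)) m + 1)) (P 0 (((r i).trans (σ i)) m + 2))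
    rcases Setup.perm3 ((r i).trans (σ i)) m with ⟨h1, h2⟩ | ⟨h1, h2⟩
    · rw [h1, h2, dist_comm]
    · rw [h1, h2]
  · intro i m
    show EuclideanGeometry.angle (Setup.eC (P i (r i (m + 1)))) (Setup.eC (P i (r i m)))
      (Setup.eC (P i (r i (m + 2)))) = EuclideanGeometry.angle (P 0 (((r i).trans (σ i)) m + 1))
        (P 0 (((r i).trans (σ i)) m)) (P 0 (((r i).trans (σ i)) m + 2))
    rw [Setup.angle_of_dist _ _ _ (P 0 (((r i).trans (σ i)) (m + 1)))
        (P 0 (((r i).trans (σ i)) m)) (P 0 (((r i).trans (σ i)) (m + 2))) (hd i _ _)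
        (hd i _ _) (hd i _ _)]
    rcases Setup.perm3 ((r i).trans (σ i)) m with ⟨h1, h2⟩ | ⟨h1, h2⟩
    · rw [h1, h2]
    · rw [h1, h2, EuclideanGeometry.angle_comm]
  · intro k
    show ‖Setup.eC (A (ρ (k + 2))) - Setup.eC (A (ρ (k + 1)))‖ = _
    rw [← dist_eq_norm, Setup.eC.dist_map, dist_comm]
  · intro k
    rfl

/-- `P` is a dissection of the triangle `T` into `N` congruent non-degenerate triangles -/
structure IsCut (T : Fin 3 → EuclideanSpace ℝ (Fin 2)) (N : ℕ)
    (P : Fin N → Fin 3 → EuclideanSpace ℝ (Fin 2)) : Prop where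
  indep : ∀ i, AffineIndependent ℝ (P i)
  cong : ∀ i j, ∃ f : EuclideanSpace ℝ (Fin 2) ≃ᵢ EuclideanSpace ℝ (Fin 2),
      f '' TriSet (P i) = TriSet (P j)
  union : (⋃ i, TriSet (P i)) = TriSet T
  disj : ∀ i j, i ≠ j → Disjoint (interior (TriSet (P i))) (interior (TriSet (P j)))

/-- all angles of all pieces are rational multiples of `π` -/
def RatAngles {N : ℕ} (P : Fin N → Fin 3 → EuclideanSpace ℝ (Fin 2)) : Prop :=
  ∀ i k, ∃ q : ℚ, angle (P i) k = q * Real.pi

/-- any triangle, rational angles: every prime at least 17 has an even exponent in `N` -/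
theorem rational_even (T : Fin 3 → EuclideanSpace ℝ (Fin 2)) (hT : AffineIndependent ℝ T)
    (N : ℕ) (P : Fin N → Fin 3 → EuclideanSpace ℝ (Fin 2)) (h : IsCut T N P) (hr : RatAngles P)
    (l : ℕ) (hl : l.Prime) (h17 : 17 ≤ l) : Even (N.factorization l) := by
  by_contra hodd
  rw [Nat.not_even_iff_odd] at hodd
  have hN0 : N ≠ 0 := by
    rintro rfl
    simp at hodd
  haveI : NeZero N := ⟨hN0⟩
  obtain ⟨j0, hj0⟩ := hodd
  obtain ⟨e, k0, hk0, hNk⟩ := Nat.exists_eq_pow_mul_and_not_dvd hN0 l hl.ne_one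
  have he : e = 2 * j0 + 1 := by
    rw [← hj0]
    have hk00 : k0 ≠ 0 := by
      rintro rfl
      exact hk0 (dvd_zero l)
    rw [hNk, Nat.factorization_mul (pow_pos hl.pos _).ne' hk00, Nat.factorization_pow]
    simp only [Finsupp.coe_add, Finsupp.coe_smul, Pi.add_apply, Pi.smul_apply, smul_eq_mul]
    rw [hl.factorization_self, Nat.factorization_eq_zero_of_not_dvd hk0]
    ring
  have hdist : ∀ i, ∃ σ : Equiv.Perm (Fin 3), ∀ k l,
      dist (P i k) (P i l) = dist (P 0 (σ k)) (P 0 (σ l)) := by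
    intro i
    obtain ⟨f, hf⟩ := h.cong 0 i
    exact Setup.cong_perm (P 0) (P i) (h.indep 0) (h.indep i) f hf
  obtain ⟨TC, t, τ, ℓ, θ, ρ, hdis, hlen, hang, -, hθ⟩ := setup2 T P hT h.indep hdist h.union h.disj
  refine RatFalse3.rational_false3 l k0 j0 hl h17 hk0 (by rw [← he, hNk, mul_comm]) hdis τ ℓ θ
    hlen hang ?_
  intro k
  obtain ⟨q, hq⟩ := hr 0 k
  exact ⟨q, by rw [hθ k, hq]⟩

/-- equilateral triangle, `N ≡ 2 (mod 4)`: all angles of the pieces are rational multiples of `π` -/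
theorem two_rational (T : Fin 3 → EuclideanSpace ℝ (Fin 2)) (h0 : T 0 ≠ T 1)
    (h01 : dist (T 0) (T 1) = dist (T 1) (T 2)) (h12 : dist (T 1) (T 2) = dist (T 2) (T 0))
    (N : ℕ) (hN : N % 4 = 2) (P : Fin N → Fin 3 → EuclideanSpace ℝ (Fin 2)) (h : IsCut T N P) :
    RatAngles P := by
  haveI : NeZero N := ⟨by omega⟩
  have hA := affineIndependent_of_equilateral T h0 h01 h12
  have hdist : ∀ i, ∃ σ : Equiv.Perm (Fin 3), ∀ k l,
      dist (P i k) (P i l) = dist (P 0 (σ k)) (P 0 (σ l)) := by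
    intro i
    obtain ⟨f, hf⟩ := h.cong 0 i
    exact Setup.cong_perm (P 0) (P i) (h.indep 0) (h.indep i) f hf
  obtain ⟨TC, t, τ, ℓ, θ, ρ, hdis, hlen, hang, hT, hθ⟩ := setup2 T P hA h.indep hdist h.union h.disj
  have hall : ∀ x y : Fin 3, x ≠ y → dist (T x) (T y) = dist (T 0) (T 1) := by
    intro x y hxy
    fin_cases x <;> fin_cases y <;> first | exact absurd rfl hxy | skip
    · rfl
    · show dist (T 0) (T 2) = _
      rw [dist_comm (T 0) (T 2)]; linarith
    · show dist (T 1) (T 0) = _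
      exact dist_comm _ _
    · show dist (T 1) (T 2) = _
      linarith
    · show dist (T 2) (T 0) = _
      linarith
    · show dist (T 2) (T 1) = _
      rw [dist_comm (T 2) (T 1)]; linarith
  have hlT : ∀ k, len TC k = dist (T 0) (T 1) := by
    intro k
    rw [hT k]
    apply hall
    intro he
    have := ρ.injective he
    revert this
    fin_cases k <;> decide
  have hratθ : ∀ k, ∃ q : ℚ, θ k = q * Real.pi := by
    by_contra hrat
    have hD := DataDis.data_of_dis (by omega) hdis τ ℓ θ hlen hang hrat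
    obtain ⟨σ, P', hP', hc⟩ := ClassDis.class_of_dis (by omega) hdis τ θ hang hrat
    exact EqTwo.equilateral_final_two hN hD
      (ang_equilateral TC hdis.ccwT (by rw [hlT, hlT]) (by rw [hlT, hlT])) σ P' hP' hc
  intro i k
  obtain ⟨σ, hσ⟩ := hdist i
  obtain ⟨q, hq⟩ := hratθ (σ k)
  exact ⟨q, by rw [angle_perm (P 0) (P i) σ hσ k, ← hθ, hq]⟩

end Pool.Agent.Helper549.Tri2.Main
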