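import Mathlib
set_option autoImplicit false

namespace Pool.Agent.Helper549.Tri2.TqJob

theorem tq_count (x : ℕ) :
    ((Finset.range (x + 1)).filter (fun N => 1 ≤ N ∧ N % 3 = 0 ∧ N % 4 ≠ 2)).card
      = x / 12 + (x + 9) / 12 + (x + 3) / 12 := by
  induction x with
  | zero => decide
  | succ x ih =>
    rw [Finset.range_add_one, Finset.filter_insert]
    by_cases h : 1 ≤ x + 1 ∧ (x + 1) % 3 = 0 ∧ (x + 1) % 4 ≠ 2
    · rw [if_pos h, Finset.card_insert_of_notMem (by simp), ih]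
      have h12 : (x + 1) % 12 = 0 ∨ (x + 1) % 12 = 3 ∨ (x + 1) % 12 = 9 := by omega
      rcases h12 with h12 | h12 | h12 <;> omega
    · rw [if_neg h, ih]
      have h12 : (x + 1) % 12 ≠ 0 ∧ (x + 1) % 12 ≠ 3 ∧ (x + 1) % 12 ≠ 9 := by
        refine ⟨?_, ?_, ?_⟩ <;> intro hh <;> apply h <;> refine ⟨by omega, by omega, by omega⟩
      omega

/-- TARGET 1 -/
theorem three_quarters (Q : ℕ → Prop) (x : ℕ) :
    3 * x ≤ 4 * {N : ℕ | 1 ≤ N ∧ N ≤ x ∧ ¬ Q N}.ncard +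
      4 * {N : ℕ | 1 ≤ N ∧ N ≤ x ∧ (N % 3 ≠ 0 ∨ N % 4 = 2) ∧ Q N}.ncard + 1 := by
  classical
  have e1 : {N : ℕ | 1 ≤ N ∧ N ≤ x ∧ ¬ Q N}
      = (((Finset.range (x + 1)).filter (fun N => 1 ≤ N ∧ ¬ Q N) : Finset ℕ) : Set ℕ) := by
    ext N
    simp only [Set.mem_ofPred_eq, Finset.coe_filter, Finset.mem_range, Order.lt_add_one_iff]
    tauto
  have e2 : {N : ℕ | 1 ≤ N ∧ N ≤ x ∧ (N % 3 ≠ 0 ∨ N % 4 = 2) ∧ Q N}
      = (((Finset.range (x + 1)).filter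
          (fun N => 1 ≤ N ∧ (N % 3 ≠ 0 ∨ N % 4 = 2) ∧ Q N) : Finset ℕ) : Set ℕ) := by
    ext N
    simp only [Set.mem_ofPred_eq, Finset.coe_filter, Finset.mem_range, Order.lt_add_one_iff]
    tauto
  rw [e1, e2, Set.ncard_coe_finset, Set.ncard_coe_finset]
  have hsub : Finset.Icc 1 x ⊆ ((Finset.range (x + 1)).filter (fun N => 1 ≤ N ∧ ¬ Q N)) ∪
      (((Finset.range (x + 1)).filter (fun N => 1 ≤ N ∧ (N % 3 ≠ 0 ∨ N % 4 = 2) ∧ Q N)) ∪
      ((Finset.range (x + 1)).filter (fun N => 1 ≤ N ∧ N % 3 = 0 ∧ N % 4 ≠ 2))) := by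
    intro N hN
    rw [Finset.mem_Icc] at hN
    have hr : N < x + 1 := by omega
    simp only [Finset.mem_union, Finset.mem_filter, Finset.mem_range]
    by_cases hQ : Q N
    · by_cases h3 : N % 3 = 0 ∧ N % 4 ≠ 2
      · right; right; exact ⟨hr, hN.1, h3⟩
      · right; left
        refine ⟨hr, hN.1, ?_, hQ⟩
        by_contra hcon
        push Not at hcon
        exact h3 hcon
    · left; exact ⟨hr, hN.1, hQ⟩
  have hc := Finset.card_le_card hsub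
  have h1 := Finset.card_union_le ((Finset.range (x + 1)).filter (fun N => 1 ≤ N ∧ ¬ Q N))
      (((Finset.range (x + 1)).filter (fun N => 1 ≤ N ∧ (N % 3 ≠ 0 ∨ N % 4 = 2) ∧ Q N)) ∪
      ((Finset.range (x + 1)).filter (fun N => 1 ≤ N ∧ N % 3 = 0 ∧ N % 4 ≠ 2)))
  have h2 := Finset.card_union_le
      ((Finset.range (x + 1)).filter (fun N => 1 ≤ N ∧ (N % 3 ≠ 0 ∨ N % 4 = 2) ∧ Q N))
      ((Finset.range (x + 1)).filter (fun N => 1 ≤ N ∧ N % 3 = 0 ∧ N % 4 ≠ 2))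
  rw [tq_count] at h2
  rw [Nat.card_Icc] at hc
  omega

theorem card_div_30030 : (Nat.divisors 30030).card = 64 := by
  have h2 : ∀ p : ℕ, p.Prime → p.divisors.card = 2 := by
    intro p hp
    rw [hp.divisors, Finset.card_pair hp.one_lt.ne]
  have e : (30030 : ℕ) = 2 * (3 * (5 * (7 * (11 * 13)))) := by norm_num
  rw [e, Nat.Coprime.card_divisors_mul (by norm_num), Nat.Coprime.card_divisors_mul (by norm_num),
    Nat.Coprime.card_divisors_mul (by norm_num), Nat.Coprime.card_divisors_mul (by norm_num),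
    Nat.Coprime.card_divisors_mul (by norm_num), h2 2 (by norm_num), h2 3 (by norm_num),
    h2 5 (by norm_num), h2 7 (by norm_num), h2 11 (by norm_num), h2 13 (by norm_num)]

/-- TARGET 2 -/
theorem count_sq (x : ℕ) :
    {N : ℕ | 1 ≤ N ∧ N ≤ x ∧ ∃ d b : ℕ, d ∣ 30030 ∧ N = d * b ^ 2}.ncard ≤ 64 * Nat.sqrt x := by
  classical
  have hcard := card_div_30030
  have hmem : ∀ d : ℕ, d ∣ 30030 → d ∈ Nat.divisors 30030 := by
    intro d hd
    exact Nat.mem_divisors.mpr ⟨hd, by norm_num⟩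
  generalize Nat.divisors 30030 = D at hcard hmem
  have hsub : {N : ℕ | 1 ≤ N ∧ N ≤ x ∧ ∃ d b : ℕ, d ∣ 30030 ∧ N = d * b ^ 2} ⊆
      (((D ×ˢ Finset.Icc 1 (Nat.sqrt x)).image (fun p : ℕ × ℕ => p.1 * p.2 ^ 2) : Finset ℕ) :
        Set ℕ) := by
    rintro N ⟨h1, h2, d, b, hd, rfl⟩
    rw [Finset.mem_coe, Finset.mem_image]
    refine ⟨(d, b), ?_, rfl⟩
    rw [Finset.mem_product]
    refine ⟨hmem d hd, ?_⟩
    rw [Finset.mem_Icc]
    have hd0 : 0 < d := Nat.pos_of_ne_zero (by rintro rfl; simp at h1)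
    have hb0 : 0 < b := Nat.pos_of_ne_zero (by rintro rfl; simp at h1)
    refine ⟨hb0, ?_⟩
    rw [Nat.le_sqrt]
    calc b * b = 1 * b ^ 2 := by ring
      _ ≤ d * b ^ 2 := Nat.mul_le_mul_right _ hd0
      _ ≤ x := h2
  refine (Set.ncard_le_ncard hsub (Finset.finite_toSet _)).trans ?_
  rw [Set.ncard_coe_finset]
  refine Finset.card_image_le.trans ?_
  rw [Finset.card_product, hcard, Nat.card_Icc]
  omega

end Pool.Agent.Helper549.Tri2.TqJob
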