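import Mathlib
import Pool.Agent.Helper549.Tri2.Main
import Pool.Agent.Helper549.Tri2.EqGen
import Pool.Agent.Helper549.Tri2.CntJob
import Pool.Agent.Helper549.Tri2.TqJob

set_option autoImplicit false

namespace Pool.Agent.Helper549.Tri2.Main

open Pool.Agent.Helper549.Tri Pool.Agent.Helper549.Tri2.EqGen

/-- equilateral triangle, general `N ≥ 2` -/
theorem gen_cond (T : Fin 3 → EuclideanSpace ℝ (Fin 2)) (h0 : T 0 ≠ T 1)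
    (h01 : dist (T 0) (T 1) = dist (T 1) (T 2)) (h12 : dist (T 1) (T 2) = dist (T 2) (T 0))
    (N : ℕ) (hN : 2 ≤ N) (P : Fin N → Fin 3 → EuclideanSpace ℝ (Fin 2)) (h : IsCut T N P) :
    RatAngles P ∨ Cond N := by
  have _ : NeZero N := ⟨by omega⟩
  have hA := affineIndependent_of_equilateral T h0 h01 h12
  have hdist : ∀ i, ∃ σ : Equiv.Perm (Fin 3), ∀ k l,
      dist (P i k) (P i l) = dist (P 0 (σ k)) (P 0 (σ l)) := by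
    intro i
    obtain ⟨f, hf⟩ := h.cong 0 i
    exact Setup.cong_perm (P 0) (P i) (h.indep 0) (h.indep i) f hf
  obtain ⟨TC, t, τ, ℓ, θ, ρ, hdis, hlen, hang, hT, hθ⟩ := setup2 T P hA h.indep hdist h.union h.disj
  have hall : ∀ x y : Fin 3, x ≠ y → dist (T x) (T y) = dist (T 0) (T 1) := by
    intro x y hxy
    fin_cases x <;> fin_cases y <;> first | exact absurd rfl hxy | skip
    · rfl
    · show dist (T 0) (T 2) = _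
      rw [dist_comm (T 0) (T 2)]; linarith
    · show dist (T 1) (T 0) = _
      exact dist_comm _ _
    · show dist (T 1) (T 2) = _
      linarith
    · show dist (T 2) (T 0) = _
      linarith
    · show dist (T 2) (T 1) = _
      rw [dist_comm (T 2) (T 1)]; linarith
  have hlT : ∀ k, len TC k = dist (T 0) (T 1) := by
    intro k
    rw [hT k]
    apply hall
    intro he
    have := ρ.injective he
    revert this
    fin_cases k <;> decide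
  by_cases hrat : ∀ k, ∃ q : ℚ, θ k = q * Real.pi
  · left
    intro i k
    obtain ⟨σ, hσ⟩ := hdist i
    obtain ⟨q, hq⟩ := hrat (σ k)
    exact ⟨q, by rw [angle_perm (P 0) (P i) σ hσ k, ← hθ, hq]⟩
  · right
    exact eq_gen hN hdis (by rw [hlT, hlT]) (by rw [hlT, hlT]) τ ℓ θ hlen hang hrat

/-- the necessary condition -/
theorem necessary (T : Fin 3 → EuclideanSpace ℝ (Fin 2)) (h0 : T 0 ≠ T 1)
    (h01 : dist (T 0) (T 1) = dist (T 1) (T 2)) (h12 : dist (T 1) (T 2) = dist (T 2) (T 0))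
    (N : ℕ) (hN : 1 ≤ N) (h : CanCut T N) :
    (∃ d b : ℕ, d ∣ 30030 ∧ N = d * b ^ 2) ∨ Cond N := by
  obtain ⟨P, a, b, c, d⟩ := h
  have hP : IsCut T N P := ⟨a, b, c, d⟩
  rcases Nat.lt_or_ge N 2 with h2 | h2
  · left
    exact ⟨1, 1, one_dvd _, by omega⟩
  · rcases gen_cond T h0 h01 h12 N h2 P hP with h3 | h3
    · left
      obtain ⟨d, b, hd, -, hN'⟩ := Count.form N (by omega) (fun l hl h17 => by
        rw [Nat.not_odd_iff_even]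
        exact rational_even T (affineIndependent_of_equilateral T h0 h01 h12) N P hP h3 l hl h17)
      exact ⟨d, b, hd, hN'⟩
    · exact Or.inr h3

theorem cond_good (N : ℕ) (hg : N % 3 ≠ 0 ∨ N % 4 = 2) (h : Cond N) :
    ∃ m n : ℕ, m * n = 3 * N ∧
      ((n ≤ m ∧ ∃ t : ℕ, t ^ 2 = 9 * m ^ 2 + 30 * m * n + 9 * n ^ 2) ∨
       (3 * n ≤ m ∧ ∃ t : ℕ, t ^ 2 + 30 * m * n = 9 * m ^ 2 + 9 * n ^ 2)) := by
  obtain ⟨m, n, hm, hn, hmn, hmN, hnN, hm2, hn2, hc⟩ := h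
  rcases hc with ⟨⟨m', hm'⟩, ⟨n', hn'⟩⟩ | hc
  · exfalso
    rcases hg with hg | hg
    · rw [hm', hn'] at hmn
      have h9 : 3 * (3 * (m' * n')) = 3 * N := by rw [← hmn]; ring
      omega
    · obtain ⟨m1, hm1⟩ : ∃ m1, m = 2 * m1 := ⟨m / 2, by omega⟩
      obtain ⟨n1, hn1⟩ : ∃ n1, n = 2 * n1 := ⟨n / 2, by omega⟩
      rw [hm1, hn1] at hmn
      have h4 : 4 * (m1 * n1) = 3 * N := by rw [← hmn]; ring
      omega
  · exact ⟨m, n, hmn, hc⟩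

theorem count_good (T : Fin 3 → EuclideanSpace ℝ (Fin 2)) (h0 : T 0 ≠ T 1)
    (h01 : dist (T 0) (T 1) = dist (T 1) (T 2)) (h12 : dist (T 1) (T 2) = dist (T 2) (T 0))
    (x : ℕ) :
    (({N : ℕ | 1 ≤ N ∧ N ≤ x ∧ (N % 3 ≠ 0 ∨ N % 4 = 2) ∧ CanCut T N}.ncard : ℕ) : ℝ) ≤
      64 * (Nat.sqrt x : ℕ) + 2 * (4 * Nat.sqrt (3 * x) : ℕ) *
        (1 + Real.log ((4 * Nat.sqrt (3 * x) : ℕ) : ℝ)) ^ 2 := by
  have hsub : {N : ℕ | 1 ≤ N ∧ N ≤ x ∧ (N % 3 ≠ 0 ∨ N % 4 = 2) ∧ CanCut T N} ⊆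
      {N : ℕ | 1 ≤ N ∧ N ≤ x ∧ ∃ d b : ℕ, d ∣ 30030 ∧ N = d * b ^ 2} ∪
      {N : ℕ | 1 ≤ N ∧ N ≤ x ∧ ∃ m n : ℕ, m * n = 3 * N ∧
      ((n ≤ m ∧ ∃ t : ℕ, t ^ 2 = 9 * m ^ 2 + 30 * m * n + 9 * n ^ 2) ∨
       (3 * n ≤ m ∧ ∃ t : ℕ, t ^ 2 + 30 * m * n = 9 * m ^ 2 + 9 * n ^ 2))} := by
    intro N hN
    rw [Set.mem_ofPred_eq] at hN
    obtain ⟨hN1, hNx, hg, hcut⟩ := hN
    rcases necessary T h0 h01 h12 N hN1 hcut with h | h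
    · exact Or.inl ⟨hN1, hNx, h⟩
    · exact Or.inr ⟨hN1, hNx, cond_good N hg h⟩
  have hfin : ∀ p : ℕ → Prop, {N : ℕ | 1 ≤ N ∧ N ≤ x ∧ p N}.Finite := fun p =>
    (Set.finite_Icc 1 x).subset (fun N hN => ⟨hN.1, hN.2.1⟩)
  have h1 := Set.ncard_le_ncard hsub ((hfin _).union (hfin _))
  have h2 := Set.ncard_union_le
      {N : ℕ | 1 ≤ N ∧ N ≤ x ∧ ∃ d b : ℕ, d ∣ 30030 ∧ N = d * b ^ 2}
      {N : ℕ | 1 ≤ N ∧ N ≤ x ∧ ∃ m n : ℕ, m * n = 3 * N ∧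
      ((n ≤ m ∧ ∃ t : ℕ, t ^ 2 = 9 * m ^ 2 + 30 * m * n + 9 * n ^ 2) ∨
       (3 * n ≤ m ∧ ∃ t : ℕ, t ^ 2 + 30 * m * n = 9 * m ^ 2 + 9 * n ^ 2))}
  have h3 := TqJob.count_sq x
  have h4 := CntJob.count_pairs x
  have h5 := h1.trans (h2.trans (Nat.add_le_add_right h3 _))
  have h6 : (({N : ℕ | 1 ≤ N ∧ N ≤ x ∧ (N % 3 ≠ 0 ∨ N % 4 = 2) ∧ CanCut T N}.ncard : ℕ) : ℝ) ≤
      ((64 * Nat.sqrt x + {N : ℕ | 1 ≤ N ∧ N ≤ x ∧ ∃ m n : ℕ, m * n = 3 * N ∧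
      ((n ≤ m ∧ ∃ t : ℕ, t ^ 2 = 9 * m ^ 2 + 30 * m * n + 9 * n ^ 2) ∨
       (3 * n ≤ m ∧ ∃ t : ℕ, t ^ 2 + 30 * m * n = 9 * m ^ 2 + 9 * n ^ 2))}.ncard : ℕ) : ℝ) := by
    exact_mod_cast h5
  rw [Nat.cast_add] at h6
  refine h6.trans ?_
  refine add_le_add ?_ h4
  push_cast
  exact le_refl _

end Pool.Agent.Helper549.Tri2.Main
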