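import Mathlib
import Pool.Agent.Helper549.Tri.SqDefs
import Pool.Agent.Helper549.Tri.MainEq
import Pool.Agent.Helper549.Tri.Setup

set_option autoImplicit false

namespace Pool.Agent.Helper549.Tri2.NoPrime

open Pool.Agent.Helper549.Tri

/-- an equilateral triangle cannot be cut into a prime number `N ≥ 17` of congruent triangles -/
theorem no_prime (T : Fin 3 → EuclideanSpace ℝ (Fin 2)) (h0 : T 0 ≠ T 1)
    (h01 : dist (T 0) (T 1) = dist (T 1) (T 2)) (h12 : dist (T 1) (T 2) = dist (T 2) (T 0))
    (N : ℕ) (hN : N.Prime) (h17 : 17 ≤ N) : ¬ CanCut T N := by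
  rintro ⟨P, hP, hcong, hU, hD⟩
  haveI : NeZero N := ⟨by omega⟩
  have hA := affineIndependent_of_equilateral T h0 h01 h12
  have hdist : ∀ i, ∃ σ : Equiv.Perm (Fin 3), ∀ k l,
      dist (P i k) (P i l) = dist (P 0 (σ k)) (P 0 (σ l)) := by
    intro i
    obtain ⟨f, hf⟩ := hcong 0 i
    exact Setup.cong_perm (P 0) (P i) (hP 0) (hP i) f hf
  obtain ⟨TC, t, τ, ℓ, θ, ρ, h, hlen, hang, hT⟩ := Setup.setup T P hA hP hdist hU hD
  have hall : ∀ x y : Fin 3, x ≠ y → dist (T x) (T y) = dist (T 0) (T 1) := by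
    intro x y hxy
    fin_cases x <;> fin_cases y <;> first | exact absurd rfl hxy | skip
    · rfl
    · show dist (T 0) (T 2) = _
      rw [dist_comm (T 0) (T 2)]; linarith
    · show dist (T 1) (T 0) = _
      exact dist_comm _ _
    · show dist (T 1) (T 2) = _
      linarith
    · show dist (T 2) (T 0) = _
      linarith
    · show dist (T 2) (T 1) = _
      rw [dist_comm (T 2) (T 1)]; linarith
  have hlT : ∀ k, len TC k = dist (T 0) (T 1) := by
    intro k
    rw [hT k]
    apply hall
    intro he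
    have := ρ.injective he
    revert this
    fin_cases k <;> decide
  exact no_dis_eq hN h17 h (by rw [hlT, hlT]) (by rw [hlT, hlT]) τ ℓ θ hlen hang

end Pool.Agent.Helper549.Tri2.NoPrime
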